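import Pool.Agent.Lib.Vps.MainA

/-!
# The radial scatter (MP_733c86_co)
-/

set_option autoImplicit false

open Finset Pool.Agent.Vps
open scoped ComplexConjugate

namespace Pool.Agent.Vpt

/-- The radial scatter of `X` is at most `s`, up to a small slope. -/
def Slp (X : Finset ℂ) (s : ℝ) : Prop :=
  ∀ y ∈ X, ∀ y' ∈ X, dist y y' ≤ 1 / 100 → |‖y‖ - ‖y'‖| ≤ 1 / 9 * dist y y' + s

namespace SlpAux

/-- All the numerical conditions. -/
theorem consts {n e : ℝ} (he : 0 ≤ e) (hn : 10 ^ 40 * (e + 1) ≤ n) :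
    10 ^ 40 ≤ n ∧
    0 < 2 * 10 ^ 12 * (e + 1) / n ∧ 2 * 10 ^ 12 * (e + 1) / n ≤ 1 / 10 ^ 8 ∧
    5 * e / n ≤ 2 * 10 ^ 12 * (e + 1) / n / 10 ^ 11 ∧
    2 * 10 ^ 12 * (e + 1) ≤ n * (2 * 10 ^ 12 * (e + 1) / n) ∧ 5 * e / n ≤ 1 / 10 ^ 20 ∧
    0 ≤ 5 * e / n := by
  have h0 : (10 : ℝ) ^ 40 ≤ n := by nlinarith
  have hn0 : 0 < n := by linarith [show (0 : ℝ) < 10 ^ 40 by positivity]
  refine ⟨h0, by positivity, ?_, ?_, ?_, ?_, by positivity⟩
  · rw [div_le_div_iff₀ hn0 (by positivity)]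
    nlinarith
  · rw [div_div, mul_comm n, ← div_div]
    apply div_le_div_of_nonneg_right _ hn0.le
    rw [le_div_iff₀ (by positivity)]
    nlinarith
  · rw [mul_div_cancel₀ _ hn0.ne']
  · rw [div_le_div_iff₀ hn0 (by positivity)]
    nlinarith

/-- `Vps.slope_all` with a weaker hypothesis. -/
theorem slope_all {X : Finset ℂ} {e : ℝ} (h : Ann X e (5 * e / X.card))
    (hn : 10 ^ 40 * (e + 1) ≤ X.card) :
    ∀ y ∈ X, ∀ y' ∈ X, |Complex.arg (y' / y)| ≤ 1 / 50 →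
      |‖y‖ - ‖y'‖| ≤ 1 / 10 * |Complex.arg (y' / y)| +
        2 * (10 ^ 5 * (e + 1) / X.card) ^ 2 := by
  have he := h.nonneg
  obtain ⟨c1, c3, c4, c5, c6, c7, c8⟩ := consts he hn
  have hn0 : (0 : ℝ) < X.card := by linarith [show (0 : ℝ) < 10 ^ 40 by positivity]
  set t : ℝ := 10 ^ 5 * (e + 1) / X.card with ht
  have ht0 : 0 < t := by positivity
  have hnt : X.card * t = 10 ^ 5 * (e + 1) := by
    rw [ht, mul_div_cancel₀ _ hn0.ne']
  have ht1 : t ≤ 1 / 10 ^ 30 := by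
    rw [ht, div_le_div_iff₀ hn0 (by positivity)]
    nlinarith
  obtain ⟨ρ, hρ, hlo, hexc⟩ := exists_rho h.toSys h.nonempty
    (fun x hx => top_big h c3 c4 c5 c6 hx)
  have hTt : 100 * (5 * e / X.card) ≤ t := by
    rw [ht, ← mul_div_assoc]
    apply div_le_div_of_nonneg_right _ hn0.le
    nlinarith
  have ht4 : t ≤ 1 / 10 ^ 4 := ht1.trans (by norm_num)
  have hdepth : ∀ x ∈ X, ((1 + t ^ 2 : ℝ) : ℂ) * x ∉ convexHull ℝ (X : Set ℂ) := by
    intro x hx hcon
    have h1 := top_count h c3 c4 c5 c6 ht0 ht4 hTt hnt.ge hρ hlo hexc hx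
    have h2 := depth h (c7.trans (by norm_num)) hρ hexc (w := 3 * t ^ 2) (s := t ^ 2)
      (by positivity) (by nlinarith) (by positivity) hx hcon
    have h3 : 50 * (e + 1) ≤ ((top X x (ρ - 3 * t ^ 2)).card : ℝ) := by
      have : (X.card : ℝ) * t / 2000 = 50 * (e + 1) := by rw [hnt]; ring
      rwa [this] at h1
    have ht2 : 0 < t ^ 2 := by positivity
    have h4 : 3 * t ^ 2 * (50 * (e + 1) - (9 * e + 6)) ≤
        3 * t ^ 2 * (((top X x (ρ - 3 * t ^ 2)).card : ℝ) - (9 * e + 6)) :=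
      mul_le_mul_of_nonneg_left (by linarith) (by positivity)
    have h5 : 3 * t ^ 2 * (50 * (e + 1) - (9 * e + 6)) ≤ (10 * e + 6) * (3 * t ^ 2) := h4.trans h2
    have h6 : 3 * t ^ 2 * (50 * (e + 1) - (9 * e + 6)) - (10 * e + 6) * (3 * t ^ 2) =
        3 * t ^ 2 * (31 * e + 38) := by ring
    have h7 : 0 < 3 * t ^ 2 * (31 * e + 38) := by positivity
    linarith
  refine approx_slope (fun x hx => (MainAAux.norm_sub_one_le (h.ann x hx)).trans
    (c7.trans (by norm_num))) ?_ (s := t ^ 2) (by positivity) (by nlinarith) hdepth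
  intro u hu
  obtain ⟨x, hx, hxu⟩ := density h c3 c4 c5 c6 hu
  exact ⟨x, hx, hxu.trans (by linarith)⟩

/-- A complex number near `1` has a small argument. -/
theorem abs_arg_le {w : ℂ} {d : ℝ} (h : ‖w - 1‖ ≤ d) (hd : d < 1) :
    |Complex.arg w| ≤ d / (1 - d) := by
  have hre : |(w - 1).re| ≤ d := (Complex.abs_re_le_norm _).trans h
  have him : |(w - 1).im| ≤ d := (Complex.abs_im_le_norm _).trans h
  simp only [Complex.sub_re, Complex.one_re, Complex.sub_im, Complex.one_im, sub_zero] at hre him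
  rw [abs_le] at hre
  have hre0 : 1 - d ≤ w.re := by linarith [hre.1]
  have hpos : 0 < w.re := by linarith
  have hlt : |Complex.arg w| < Real.pi / 2 :=
    Complex.abs_arg_lt_pi_div_two_iff.2 (Or.inl hpos)
  have h1 := Real.le_tan (abs_nonneg (Complex.arg w)) hlt
  have h2 : Real.tan |Complex.arg w| ≤ |w.im| / w.re := by
    rcases abs_cases (Complex.arg w) with ⟨h5, -⟩ | ⟨h5, -⟩
    · rw [h5, Complex.tan_arg]
      gcongr
      exact le_abs_self _
    · rw [h5, Real.tan_neg, Complex.tan_arg, ← neg_div]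
      gcongr
      exact neg_le_abs _
  refine (h1.trans h2).trans ?_
  exact div_le_div₀ ((abs_nonneg _).trans him) him (by linarith) hre0

end SlpAux

/-- PROOF. (1) The proof of `Vps.slope_all` (MainA.lean) works word for word with the weaker hypothesis
`10 ^ 40 * (e + 1) ≤ card X` (`t = 10 ^ 5 (e + 1) / n ≤ 1 / 10 ^ 35`; in `MainAAux.consts` the square is
only used for `10 ^ 40 (e + 1) ≤ n`): for `|arg (y' / y)| ≤ 1 / 50`,
`|‖y‖ - ‖y'‖| ≤ 1 / 10 * |arg (y' / y)| + 2 t ^ 2`. (2) If `dist y y' ≤ 1 / 100`, then with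
`w = y' / y`, `|w.im| ≤ ‖1 - w‖ = dist y y' / ‖y‖ ≤ 1.001 dist y y'`, `w.re ≥ 0.98`, so
`|arg w| ≤ 1.01 * 1.001 * ... ≤ 10 / 9 * dist y y'` and `≤ 1 / 50` (for instance
`|arg w| = |arctan (w.im / w.re)| ≤ |w.im| / w.re`, or `|sin (arg w)| = |w.im| / ‖w‖` and
`Real.mul_le_sin`-type bounds; `arg_small2` in ApproxSlope). -/
theorem slp {X : Finset ℂ} {e : ℝ} (h : Ann X e (5 * e / X.card))
    (hn : 10 ^ 40 * (e + 1) ≤ X.card) : Slp X (2 * (10 ^ 5 * (e + 1) / X.card) ^ 2) := by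
  intro y hy y' hy' hd
  obtain ⟨-, -, -, -, -, c7, -⟩ := SlpAux.consts h.nonneg hn
  have hny : |‖y‖ - 1| ≤ 1 / 10 ^ 4 :=
    (MainAAux.norm_sub_one_le (h.ann y hy)).trans (c7.trans (by norm_num))
  rw [abs_le] at hny
  have hy1 : 9999 / 10000 ≤ ‖y‖ := by linarith [hny.1]
  have hy0 : y ≠ 0 := by
    rintro rfl
    rw [norm_zero] at hy1
    norm_num at hy1
  have h1 : ‖y' / y - 1‖ ≤ 1001 / 1000 * dist y y' := by
    have e1 : y' / y - 1 = (y' - y) / y := by field_simp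
    rw [e1, norm_div, dist_comm y y', dist_eq_norm, div_le_iff₀ (by linarith)]
    have := norm_nonneg (y' - y)
    nlinarith
  have hd0 : 0 ≤ dist y y' := dist_nonneg
  have h2 := SlpAux.abs_arg_le h1 (by linarith)
  have h3 : 1001 / 1000 * dist y y' / (1 - 1001 / 1000 * dist y y') ≤ 10 / 9 * dist y y' := by
    rw [div_le_iff₀ (by linarith)]
    nlinarith
  have h4 := h2.trans h3
  have h5 := SlpAux.slope_all h hn y hy y' hy' (h4.trans (by linarith))
  linarith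

end Pool.Agent.Vpt
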