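import Pool.Agent.Lib.Vpt.Slp

/-!
# Coincidences come from close pairs (MP_733c86_co)
-/

set_option autoImplicit false

open Finset Pool.Agent.Vps
open scoped ComplexConjugate

namespace Pool.Agent.Vpt

open Classical in
/-- The ordered pairs of different points of `X` at distance at most `r`. -/
noncomputable def CP (X : Finset ℂ) (r : ℝ) : Finset (ℂ × ℂ) :=
  (X ×ˢ X).filter fun p => p.1 ≠ p.2 ∧ dist p.2 p.1 ≤ r

/-- PROOF. `coin_dist`: `d := dist y y' ≤ 20 T ≤ 1 / 100`, so `hs` gives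
`r := |‖y‖ - ‖y'‖| ≤ d / 9 + s`. `P = Re (y conj x)`, `Q = Im (y conj x)`, `P'`, `Q'`: as
`dist x y = dist x y'`, `2 (P - P') = ‖y‖ ^ 2 - ‖y'‖ ^ 2` (`dist_sq_eq`), `|P - P'| ≤ 1.001 r`;
`Q ^ 2 - Q' ^ 2 = (‖y‖ ^ 2 - ‖y'‖ ^ 2) (‖x‖ ^ 2 - (P + P') / 2)`, `‖x‖ ^ 2 - (P + P') / 2 ∈ [0, 1.82]`
(`P ∈ [-0.806, 0.956]`), `|Q|, |Q'| ≥ 0.26`, same sign: `|Q - Q'| ≤ 2.002 * 1.82 r / 0.52 ≤ 7.05 r`.
`d ‖x‖ = ‖(y - y') conj x‖`, so `d ≤ 1.001 * sqrt (1.01 + 49.8) r ≤ 7.2 r ≤ 0.8 d + 7.2 s`,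
`d ≤ 36 s`. -/
theorem coin_close {X : Finset ℂ} {T s : ℝ} (hT : T ≤ 1 / 10 ^ 6) (hs : Slp X s) {x y y' : ℂ}
    (hx : |‖x‖ ^ 2 - 1| ≤ T) (hy : |‖y‖ ^ 2 - 1| ≤ T) (hy' : |‖y'‖ ^ 2 - 1| ≤ T) (hyX : y ∈ X)
    (hyX' : y' ∈ X) (h1 : 3 / 10 ≤ dist x y) (h2 : dist x y ≤ 19 / 10)
    (h3 : dist x y' = dist x y) (h4 : 0 < (y * conj x).im ↔ 0 < (y' * conj x).im) :
    dist y y' ≤ 50 * s := by
  have hT0 : 0 ≤ T := (abs_nonneg _).trans hx
  have hD20 := coin_dist (hT.trans (by norm_num)) hx hy hy' h1 h2 h3 h4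
  have hDs : |‖y‖ - ‖y'‖| ≤ 1 / 9 * dist y y' + s :=
    hs y hyX y' hyX' (hD20.trans (by linarith))
  have e1 := dist_sq_eq x y
  have e2 := norm_sq_frame x y
  have e1' := dist_sq_eq x y'
  have e2' := norm_sq_frame x y'
  rw [h3] at e1'
  have e3 := norm_sq_frame x (y - y')
  have e4 : ((y - y') * conj x).re = (y * conj x).re - (y' * conj x).re := by
    rw [sub_mul, Complex.sub_re]
  have e5 : ((y - y') * conj x).im = (y * conj x).im - (y' * conj x).im := by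
    rw [sub_mul, Complex.sub_im]
  rw [e4, e5, ← Complex.dist_eq] at e3
  have hd1 : (3 / 10) ^ 2 ≤ dist x y ^ 2 := pow_le_pow_left₀ (by norm_num) h1 2
  have hd2 : dist x y ^ 2 ≤ (19 / 10) ^ 2 := pow_le_pow_left₀ dist_nonneg h2 2
  rw [abs_le] at hx hy hy'
  have hny : ‖y‖ ≤ 10001 / 10000 := by
    by_contra hcon
    push Not at hcon
    nlinarith
  have hny' : ‖y'‖ ≤ 10001 / 10000 := by
    by_contra hcon
    push Not at hcon
    nlinarith
  set D := dist y y' with hD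
  have hD0 : 0 ≤ D := dist_nonneg
  have hbc : |‖y‖ ^ 2 - ‖y'‖ ^ 2| ≤ (1 / 9 * D + s) * (20002 / 10000) := by
    have h5 : ‖y‖ ^ 2 - ‖y'‖ ^ 2 = (‖y‖ - ‖y'‖) * (‖y‖ + ‖y'‖) := by ring
    rw [h5, abs_mul]
    apply mul_le_mul hDs _ (abs_nonneg _) ((abs_nonneg _).trans hDs)
    rw [abs_of_nonneg (by positivity)]
    linarith
  set r := (y * conj x).re with hr
  set r' := (y' * conj x).re with hr'
  set i := (y * conj x).im with hi
  set i' := (y' * conj x).im with hi'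
  set a := ‖x‖ ^ 2 with ha
  set b := ‖y‖ ^ 2 with hb
  set c := ‖y'‖ ^ 2 with hc
  have r1 : -(806 / 1000) ≤ r := by linarith
  have r2 : r ≤ 956 / 1000 := by linarith
  have r1' : -(806 / 1000) ≤ r' := by linarith
  have r2' : r' ≤ 956 / 1000 := by linarith
  have hab : 999 / 1000 ≤ b * a := by
    have h5 : 9999 / 10000 * (9999 / 10000) ≤ b * a :=
      mul_le_mul (by linarith) (by linarith) (by norm_num) (by linarith)
    linarith
  have hac : 999 / 1000 ≤ c * a := by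
    have h5 : 9999 / 10000 * (9999 / 10000) ≤ c * a :=
      mul_le_mul (by linarith) (by linarith) (by norm_num) (by linarith)
    linarith
  have s1 : 68 / 1000 ≤ i ^ 2 := SameSideAux.im_sq_big r1 r2 hab e2
  have s1' : 68 / 1000 ≤ i' ^ 2 := SameSideAux.im_sq_big r1' r2' hac e2'
  have hrr : r - r' = (b - c) / 2 := by linarith
  have hii : |i ^ 2 - i' ^ 2| ≤ 182 / 100 * |b - c| := by
    have h5 : i ^ 2 - i' ^ 2 = (a - (r + r') / 2) * (b - c) := by
      have h6 : i ^ 2 - i' ^ 2 = a * (b - c) - (r - r') * (r + r') := by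
        linear_combination e2' - e2
      rw [h6, hrr]
      ring
    rw [h5, abs_mul]
    apply mul_le_mul_of_nonneg_right _ (abs_nonneg _)
    rw [abs_le]
    constructor <;> linarith
  have hdiv : ∀ u v : ℝ, 26 / 100 ≤ u → 26 / 100 ≤ v → |u ^ 2 - v ^ 2| ≤ 182 / 100 * |b - c| →
      |u - v| ≤ 35 / 10 * |b - c| := by
    intro u v hu hv h
    have h6 : |u - v| * (52 / 100) ≤ |u ^ 2 - v ^ 2| := by
      have h7 : u ^ 2 - v ^ 2 = (u - v) * (u + v) := by ring
      rw [h7, abs_mul]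
      apply mul_le_mul_of_nonneg_left _ (abs_nonneg _)
      rw [abs_of_nonneg (by linarith)]
      linarith
    have h8 := abs_nonneg (u - v)
    linarith
  have hi8 : |i - i'| ≤ 35 / 10 * |b - c| := by
    by_cases hpos : 0 < i
    · have hpos' := h4.1 hpos
      exact hdiv i i' (SameSideAux.abs_im_big s1 hpos.le) (SameSideAux.abs_im_big s1' hpos'.le) hii
    · have hpos' : ¬ 0 < i' := fun h => hpos (h4.2 h)
      push Not at hpos hpos'
      have h5 : |(-i) - (-i')| ≤ 35 / 10 * |b - c| :=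
        hdiv (-i) (-i') (SameSideAux.abs_im_big (by rwa [neg_sq]) (by linarith))
          (SameSideAux.abs_im_big (by rwa [neg_sq]) (by linarith)) (by rw [neg_sq, neg_sq]; exact hii)
      rwa [neg_sub_neg, abs_sub_comm] at h5
  have hii2 : (i - i') ^ 2 ≤ (35 / 10 * |b - c|) ^ 2 := by
    rw [← sq_abs]; exact pow_le_pow_left₀ (abs_nonneg _) hi8 2
  have hd : D ^ 2 ≤ (36 / 10 * |b - c|) ^ 2 := by
    have h5 : 999 / 1000 ≤ a := by linarith
    have h6 : D ^ 2 * (999 / 1000) ≤ D ^ 2 * a :=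
      mul_le_mul_of_nonneg_left h5 (by positivity)
    have h7 : (35 / 10 * |b - c|) ^ 2 = (35 / 10) ^ 2 * (b - c) ^ 2 := by rw [mul_pow, sq_abs]
    have h8 : (36 / 10 * |b - c|) ^ 2 = (36 / 10) ^ 2 * (b - c) ^ 2 := by rw [mul_pow, sq_abs]
    have h9 : (r - r') ^ 2 = (b - c) ^ 2 / 4 := by rw [hrr]; ring
    have h10 : 0 ≤ (b - c) ^ 2 := sq_nonneg _
    rw [h8]
    rw [h7] at hii2
    linarith
  have hd' : D ≤ 36 / 10 * |b - c| :=
    (pow_le_pow_iff_left₀ hD0 (by positivity) (by norm_num)).1 hd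
  have hs0 : 0 ≤ s := by
    have h5 := hs y hyX y hyX (by rw [dist_self]; norm_num)
    rw [dist_self, sub_self, abs_zero] at h5
    linarith
  linarith

/-- PROOF. As `Vps.sum_coin`, with the set `CP X (50 * s)` for `P` and `coin_close`. -/
theorem sum_coin_pairs {X : Finset ℂ} {e T : ℝ} (h : Ann X e T) (hT : T ≤ 1 / 10 ^ 6)
    (hcol : NoCol X) {s : ℝ} (hs : Slp X s) :
    ∑ x ∈ X, ((coin X x).card : ℝ) ≤ 2 * (CP X (50 * s)).card := by
  classical
  set P : Finset (ℂ × ℂ) := CP X (50 * s) with hP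
  have hcx : ∀ x ∈ X, (coin X x).card ≤ (P.filter fun p => dist x p.1 = dist x p.2).card := by
    intro x hx
    have h1 : coin X x ⊆ (P.filter fun p => dist x p.1 = dist x p.2).image
        fun p => dist x p.1 := by
      intro d hd
      rw [coin, Finset.mem_filter] at hd
      obtain ⟨hdD, hd1, hd2, y, hy, y', hy', hne, hdy, hdy', hiff⟩ := hd
      refine Finset.mem_image.2 ⟨(y, y'), ?_, hdy⟩
      rw [Finset.mem_filter, hP, CP, Finset.mem_filter, Finset.mem_product]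
      refine ⟨⟨⟨hy, hy'⟩, hne, ?_⟩, by rw [hdy, hdy']⟩
      rw [dist_comm]
      exact coin_close hT hs (h.ann x hx) (h.ann y hy) (h.ann y' hy') hy hy' (by rw [hdy]; exact hd1)
        (by rw [hdy]; exact hd2) (by rw [hdy, hdy']) hiff
    exact (Finset.card_le_card h1).trans Finset.card_image_le
  have hdc : ∑ x ∈ X, (P.filter fun p => dist x p.1 = dist x p.2).card =
      ∑ p ∈ P, (X.filter fun x => dist x p.1 = dist x p.2).card :=
    Finset.sum_card_bipartiteAbove_eq_sum_card_bipartiteBelow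
      (fun x (p : ℂ × ℂ) => dist x p.1 = dist x p.2)
  have hle : ∑ x ∈ X, (coin X x).card ≤ 2 * P.card := by
    refine (Finset.sum_le_sum hcx).trans ?_
    rw [hdc]
    have h2 := Finset.sum_le_card_nsmul P (fun p => (X.filter fun x => dist x p.1 = dist x p.2).card)
      2 (fun p hp => by
        rw [hP, CP, Finset.mem_filter] at hp
        exact bisector hcol hp.2.1)
    rw [smul_eq_mul] at h2
    linarith
  exact_mod_cast hle

end Pool.Agent.Vpt
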