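import Pool.Agent.Lib.Vpt.CoinClose
import Pool.Agent.Lib.Vpd.Geo

/-!
# Inversions come from close pairs (MP_733c86_co)
-/

set_option autoImplicit false

open Finset Pool.Agent.Vps Pool.Agent.Vpd
open scoped ComplexConjugate

namespace Pool.Agent.Vpt

/-- For an inconsistent pair the distance is at most `(100 / 97)` times the difference of the
squared norms. -/
theorem inv_dist_le {x x' z y : ℂ} (h : Step x x') (hz : dist z Complex.I ≤ 1 / 50)
    (hy : dist y Complex.I ≤ 1 / 50) (hinv : Inv x x' z y) :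
    97 / 100 * dist z y ≤ |‖y‖ ^ 2 - ‖z‖ ^ 2| := by
  obtain ⟨a, b, ha, hb, hab⟩ := geo_zero h hinv
  obtain ⟨hz1, hz2⟩ := geo_near_I hz
  obtain ⟨hy1, hy2⟩ := geo_near_I hy
  rw [geo_norm_sq, geo_norm_sq]
  set n1 : ℝ := y.re - z.re with hn1
  set n2 : ℝ := y.im - z.im with hn2
  set w : ℝ := (y.re ^ 2 + y.im ^ 2) - (z.re ^ 2 + z.im ^ 2) with hw
  have e2 : (y.re + z.re) * n1 + (y.im + z.im) * n2 = w := by
    rw [hn1, hn2, hw]; ring
  have k1 : |n1| ≤ |w| / 2 + 1 / 100 * |n1| + 1 / 100 * |n2| := by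
    have : n1 = w / 2 - (a - 1) * n1 - b * n2 := by linarith
    calc |n1| = |w / 2 - (a - 1) * n1 - b * n2| := by rw [← this]
      _ ≤ |w / 2 - (a - 1) * n1| + |b * n2| := abs_sub _ _
      _ ≤ |w / 2| + |(a - 1) * n1| + |b * n2| := by gcongr; exact abs_sub _ _
      _ = |w| / 2 + |a - 1| * |n1| + |b| * |n2| := by
          rw [abs_mul, abs_mul, abs_div, abs_two]
      _ ≤ |w| / 2 + 1 / 100 * |n1| + 1 / 100 * |n2| := by gcongr
  have k2 : |n2| ≤ |w| / 2 + 1 / 50 * |n1| + 1 / 50 * |n2| := by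
    have : n2 = w / 2 - (y.re + z.re) / 2 * n1 - ((y.im - 1) + (z.im - 1)) / 2 * n2 := by
      linarith
    have c1 : |(y.re + z.re) / 2| ≤ 1 / 50 := by
      rw [abs_le] at hz1 hy1 ⊢
      constructor <;> linarith [hz1.1, hz1.2, hy1.1, hy1.2]
    have c2 : |((y.im - 1) + (z.im - 1)) / 2| ≤ 1 / 50 := by
      rw [abs_le] at hz2 hy2 ⊢
      constructor <;> linarith [hz2.1, hz2.2, hy2.1, hy2.2]
    calc |n2| = |w / 2 - (y.re + z.re) / 2 * n1 - ((y.im - 1) + (z.im - 1)) / 2 * n2| := by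
          rw [← this]
      _ ≤ |w / 2 - (y.re + z.re) / 2 * n1| + |((y.im - 1) + (z.im - 1)) / 2 * n2| := abs_sub _ _
      _ ≤ |w / 2| + |(y.re + z.re) / 2 * n1| + |((y.im - 1) + (z.im - 1)) / 2 * n2| := by
          gcongr; exact abs_sub _ _
      _ = |w| / 2 + |(y.re + z.re) / 2| * |n1| + |((y.im - 1) + (z.im - 1)) / 2| * |n2| := by
          rw [abs_mul, abs_mul, abs_div, abs_two]
      _ ≤ |w| / 2 + 1 / 50 * |n1| + 1 / 50 * |n2| := by gcongr
  have hd : dist z y ≤ |n1| + |n2| := by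
    rw [dist_comm, Complex.dist_eq]
    have := Complex.norm_le_abs_re_add_abs_im (y - z)
    simpa only [Complex.sub_re, Complex.sub_im] using this
  linarith

/-- PROOF. By `close_of_inv` `d := dist z y ≤ 1 / 100`. With `q` a zero of `|q - z|² - |q - y|²`
within `1 / 20` of `1` (as in `close_of_inv`, `geo_zero`), `v = y - z`:
`2 ⟨q, v⟩ = ‖y‖² - ‖z‖²` and `⟨y + z, v⟩ = ‖y‖² - ‖z‖²`, `q` about `1`, `y + z` about `2 I`: so
`|v.re|, |v.im| ≤ 1.1 |‖y‖ - ‖z‖| + 0.1 d`, `d ≤ 2 |‖y‖ - ‖z‖|` and `|‖y‖ - ‖z‖| ≤ d / 9 + s`. -/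
theorem inv_close {X : Finset ℂ} {T s : ℝ} (hT : T ≤ 1 / 10 ^ 6) (hs : Slp X s) {x x' z y : ℂ}
    (h : Step x x') (hz : dist z Complex.I ≤ 1 / 50) (hy : dist y Complex.I ≤ 1 / 50)
    (hzX : z ∈ X) (hyX : y ∈ X) (hzT : |‖z‖ ^ 2 - 1| ≤ T) (hyT : |‖y‖ ^ 2 - 1| ≤ T)
    (hinv : Inv x x' z y) : dist z y ≤ 50 * s := by
  have h1 : dist z y ≤ 3 * T := close_of_inv h hz hy hzT hyT hinv
  have h2 := hs z hzX y hyX (by linarith)
  have h3 := inv_dist_le h hz hy hinv
  have hz0 := norm_nonneg z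
  have hy0 := norm_nonneg y
  have hz1 : ‖z‖ ≤ 101 / 100 := by
    by_contra hcon
    push Not at hcon
    have := (abs_le.mp hzT).2
    nlinarith
  have hy1 : ‖y‖ ≤ 101 / 100 := by
    by_contra hcon
    push Not at hcon
    have := (abs_le.mp hyT).2
    nlinarith
  have h4 : |‖y‖ ^ 2 - ‖z‖ ^ 2| ≤ 202 / 100 * |‖z‖ - ‖y‖| := by
    have e : ‖y‖ ^ 2 - ‖z‖ ^ 2 = -((‖y‖ + ‖z‖) * (‖z‖ - ‖y‖)) := by ring
    rw [e, abs_neg, abs_mul, abs_of_nonneg (by linarith : (0 : ℝ) ≤ ‖y‖ + ‖z‖)]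
    exact mul_le_mul_of_nonneg_right (by linarith) (abs_nonneg _)
  have h5 := dist_nonneg (x := z) (y := y)
  linarith

/-- PROOF. As `Vpd.sum_unst` (Geo.lean), with the set `CP X (50 * s)` and `inv_close`; for a given pair at
most two `k` are inverted (`mono_of_inv`). -/
theorem sum_unst_pairs {X : Finset ℂ} {e T : ℝ} (h : Ann X e T) (hT : T ≤ 1 / 10 ^ 6) {s : ℝ}
    (hs : Slp X s) {M : ℕ} {p : ℕ → ℂ} (hp : ∀ j k, j < k → k < M → Step (p j) (p k)) :
    ∑ k ∈ range (M - 1), ((Unst X (p k) (p (k + 1))).card : ℝ) ≤ 2 * (CP X (50 * s)).card := by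
  classical
  -- the relation
  let F : ℕ → ℂ × ℂ → Prop := fun k c =>
    dist c.1 Complex.I ≤ 1 / 50 ∧ dist c.2 Complex.I ≤ 1 / 50 ∧ c.2 ≠ c.1 ∧
      Inv (p k) (p (k + 1)) c.1 c.2
  have step1 : ∀ k ∈ range (M - 1), (Unst X (p k) (p (k + 1))).card ≤
      ∑ c ∈ CP X (50 * s), if F k c then 1 else 0 := by
    intro k hk
    have hkM : k + 1 < M := by
      have := Finset.mem_range.1 hk
      omega
    have hst : Step (p k) (p (k + 1)) := hp k (k + 1) (by omega) hkM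
    rw [← Finset.card_filter]
    have hsub : Unst X (p k) (p (k + 1)) ⊆ ((CP X (50 * s)).filter (F k)).image Prod.fst := by
      intro a ha
      unfold Unst at ha
      rw [Finset.mem_filter] at ha
      obtain ⟨haX, hna, b, hbX, hnb, hba, hin⟩ := ha
      have hclose : dist a b ≤ 50 * s :=
        inv_close hT hs hst hna hnb haX hbX (h.ann a haX) (h.ann b hbX) hin
      refine Finset.mem_image.2 ⟨(a, b), ?_, rfl⟩
      rw [Finset.mem_filter]
      refine ⟨?_, hna, hnb, hba, hin⟩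
      unfold CP
      rw [Finset.mem_filter, Finset.mem_product]
      exact ⟨⟨haX, hbX⟩, hba.symm, by rw [dist_comm]; exact hclose⟩
    exact (Finset.card_le_card hsub).trans Finset.card_image_le
  have step2 : ∑ k ∈ range (M - 1), (Unst X (p k) (p (k + 1))).card ≤
      ∑ c ∈ CP X (50 * s), 2 := by
    calc ∑ k ∈ range (M - 1), (Unst X (p k) (p (k + 1))).card
        ≤ ∑ k ∈ range (M - 1), ∑ c ∈ CP X (50 * s), (if F k c then 1 else 0) :=
          Finset.sum_le_sum step1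
      _ = ∑ c ∈ CP X (50 * s), ∑ k ∈ range (M - 1), (if F k c then 1 else 0) :=
          Finset.sum_comm
      _ ≤ ∑ c ∈ CP X (50 * s), 2 := by
          apply Finset.sum_le_sum
          intro c _
          rw [← Finset.card_filter]
          apply geo_card_two
          intro k hk k' hk' hlt
          rw [Finset.mem_filter] at hk hk'
          obtain ⟨_, hna, hnb, hba, hin⟩ := hk
          obtain ⟨hr, _, _, _, hin'⟩ := hk'
          have hkM : k' + 1 < M := by
            have := Finset.mem_range.1 hr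
            omega
          exact geo_two_steps hp hna hnb (Ne.symm hba) hkM hin hin'
  rw [Finset.sum_const, smul_eq_mul, mul_comm] at step2
  exact_mod_cast step2

end Pool.Agent.Vpt
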