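import Pool.Agent.Lib.Vpt.CoinClose
import Pool.Agent.Lib.Vpd.Step

/-!
# Many rows (MP_733c86_co)
-/

set_option autoImplicit false

open Finset Pool.Agent.Vps Pool.Agent.Vpd
open scoped ComplexConjugate

namespace Pool.Agent.Vpt

theorem rows_key {X : Finset ℂ} {s : ℝ} (hs : Slp X s) {x x' : ℂ} (hx : x ∈ X) (hx' : x' ∈ X)
    (h1 : dist x 1 ≤ 1 / 200) (h1' : dist x' 1 ≤ 1 / 200) :
    dist x x' ≤ |x'.re - x.re| + |x'.im - x.im| ∧
      176 / 100 * |x'.re - x.re| ≤ 234 / 1000 * |x'.im - x.im| + 201 / 100 * s := by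
  have hd : dist x x' ≤ |x'.re - x.re| + |x'.im - x.im| := by
    rw [dist_comm, Complex.dist_eq]
    have := Complex.norm_le_abs_re_add_abs_im (x' - x)
    simpa using this
  refine ⟨hd, ?_⟩
  have hd2 : dist x x' ≤ 1 / 100 := by
    have := dist_triangle_right x x' 1
    linarith
  have hn := hs x hx x' hx' hd2
  rw [Complex.dist_eq] at h1 h1'
  have hr1 : |x.re - 1| ≤ 1 / 200 := by
    have := Complex.abs_re_le_norm (x - 1)
    simp only [Complex.sub_re, Complex.one_re] at this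
    linarith
  have hi1 : |x.im| ≤ 1 / 200 := by
    have := Complex.abs_im_le_norm (x - 1)
    simp only [Complex.sub_im, Complex.one_im, sub_zero] at this
    linarith
  have hr2 : |x'.re - 1| ≤ 1 / 200 := by
    have := Complex.abs_re_le_norm (x' - 1)
    simp only [Complex.sub_re, Complex.one_re] at this
    linarith
  have hi2 : |x'.im| ≤ 1 / 200 := by
    have := Complex.abs_im_le_norm (x' - 1)
    simp only [Complex.sub_im, Complex.one_im, sub_zero] at this
    linarith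
  have hn1 : ‖x‖ ≤ 1 + 1 / 200 := by
    have := norm_le_norm_add_norm_sub' x 1
    simp only [norm_one] at this
    linarith
  have hn2 : ‖x'‖ ≤ 1 + 1 / 200 := by
    have := norm_le_norm_add_norm_sub' x' 1
    simp only [norm_one] at this
    linarith
  have e1 : ‖x‖ ^ 2 = x.re ^ 2 + x.im ^ 2 := by
    rw [Complex.sq_norm, Complex.normSq_apply]; ring
  have e2 : ‖x'‖ ^ 2 = x'.re ^ 2 + x'.im ^ 2 := by
    rw [Complex.sq_norm, Complex.normSq_apply]; ring
  have e3 : (x'.re - x.re) * (x.re + x'.re) =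
      (‖x'‖ - ‖x‖) * (‖x‖ + ‖x'‖) - (x'.im - x.im) * (x.im + x'.im) := by
    have : (‖x'‖ - ‖x‖) * (‖x‖ + ‖x'‖) = ‖x'‖ ^ 2 - ‖x‖ ^ 2 := by ring
    rw [this, e1, e2]; ring
  have b1 := abs_le.1 hr1
  have b2 := abs_le.1 hi1
  have b3 := abs_le.1 hr2
  have b4 := abs_le.1 hi2
  have hsum : |x.im + x'.im| ≤ 1 / 100 := by
    rw [abs_le]; constructor <;> linarith [b2.1, b2.2, b4.1, b4.2]
  have hl : 199 / 100 * |x'.re - x.re| ≤ |(x'.re - x.re) * (x.re + x'.re)| := by
    rw [abs_mul, mul_comm]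
    apply mul_le_mul_of_nonneg_left _ (abs_nonneg _)
    rw [abs_of_nonneg (by linarith [b1.1, b3.1])]
    linarith [b1.1, b3.1]
  have hu : |(x'.re - x.re) * (x.re + x'.re)| ≤
      |‖x‖ - ‖x'‖| * (201 / 100) + |x'.im - x.im| * (1 / 100) := by
    rw [e3]
    refine (abs_sub _ _).trans ?_
    rw [abs_mul, abs_mul, abs_sub_comm ‖x'‖ ‖x‖]
    apply add_le_add
    · apply mul_le_mul_of_nonneg_left _ (abs_nonneg _)
      rw [abs_of_nonneg (by positivity)]
      linarith
    · exact mul_le_mul_of_nonneg_left hsum (abs_nonneg _)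
  have h0 : 0 ≤ |x'.im - x.im| := abs_nonneg _
  have h00 : 0 ≤ |x'.re - x.re| := abs_nonneg _
  linarith

/-- Two points near `1` whose heights differ by at least `10 s` make a step. PROOF. `hs`:
`|‖x‖ - ‖x'‖| ≤ d / 9 + s`, `d = dist x x' ≤ |Δre| + |Δim|`; near `1`
`|Δre| ≤ |‖x‖ - ‖x'‖| * 1.01 + 0.02 |Δim| + 0.02 |Δre|` (`‖x'‖ ^ 2 - ‖x‖ ^ 2 = Δre (re + re') +
Δim (im + im')`, `|im + im'| ≤ 0.02`, `re + re' ≥ 1.98`), so `|Δre| ≤ 0.3 |Δim|` as `s ≤ |Δim| / 10`. -/
theorem step_of {X : Finset ℂ} {s : ℝ} (hs : Slp X s) {x x' : ℂ} (hx : x ∈ X) (hx' : x' ∈ X)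
    (h1 : dist x 1 ≤ 1 / 200) (h1' : dist x' 1 ≤ 1 / 200) (hs0 : 0 < s)
    (him : x.im + 10 * s ≤ x'.im) : Step x x' := by
  obtain ⟨_, hk⟩ := rows_key hs hx hx' h1 h1'
  have h2 : |x'.im - x.im| = x'.im - x.im := abs_of_nonneg (by linarith)
  rw [h2] at hk
  exact ⟨by linarith, by linarith, by linarith, by linarith⟩

/-- Two points near `1` whose heights differ by at most `10 s` are close. PROOF: as `step_of`:
`|Δre| ≤ 0.15 (|Δre| + |Δim|) + 1.1 s + 0.02 |Δre|`, so `|Δre| ≤ 4 s`, `d ≤ 14 s`. -/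
theorem close_of_height {X : Finset ℂ} {s : ℝ} (hs : Slp X s) {x x' : ℂ} (hx : x ∈ X)
    (hx' : x' ∈ X) (h1 : dist x 1 ≤ 1 / 200) (h1' : dist x' 1 ≤ 1 / 200) (hs0 : 0 < s)
    (him : |x.im - x'.im| ≤ 10 * s) : dist x x' ≤ 50 * s := by
  obtain ⟨hd, hk⟩ := rows_key hs hx hx' h1 h1'
  rw [abs_sub_comm] at him
  linarith

/-- PROOF. `N = card S`. Put `x ∈ S` in the cell `⌊x.im / (10 s)⌋`. Two points of a cell are a close
pair (`close_of_height`): `∑ c (c - 1) ≤ card (CP X (50 s)) = P` over the cells of sizes `c`, so by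
Cauchy-Schwarz the number `q` of nonempty cells has `N ^ 2 ≤ q (N + P)`. Choose a parity such that at
least `q / 2` of the nonempty cells have it, one point in each; in the order of the cells these are the
rows (heights of different cells of the same parity differ by more than `10 s`; `step_of`). -/
theorem rows_of {X S : Finset ℂ} {s : ℝ} (hs : Slp X s) (hs0 : 0 < s) (hS : S ⊆ X)
    (h1 : ∀ x ∈ S, dist x 1 ≤ 1 / 200) :
    ∃ (M : ℕ) (p : ℕ → ℂ), (∀ k < M, p k ∈ X) ∧ (∀ j k, j < k → k < M → Step (p j) (p k)) ∧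
      (S.card : ℝ) ^ 2 ≤ 2 * M * (S.card + (CP X (50 * s)).card) := by
  classical
  set f : ℂ → ℤ := fun x => ⌊x.im / (10 * s)⌋ with hf
  have h10 : 0 < 10 * s := by linarith
  have hlow : ∀ x : ℂ, (f x : ℝ) * (10 * s) ≤ x.im := fun x =>
    (le_div_iff₀ h10).1 (Int.floor_le _)
  have hup : ∀ x : ℂ, x.im < ((f x : ℝ) + 1) * (10 * s) := fun x =>
    (div_lt_iff₀ h10).1 (Int.lt_floor_add_one _)
  -- pairs in the same cell
  have hpairs : ((S ×ˢ S).filter fun p => f p.1 = f p.2).card ≤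
      S.card + (CP X (50 * s)).card := by
    have hsub : ((S ×ˢ S).filter fun p => f p.1 = f p.2) ⊆ S.diag ∪ CP X (50 * s) := by
      intro p hp
      simp only [mem_filter, mem_product] at hp
      obtain ⟨⟨hp1, hp2⟩, hp3⟩ := hp
      rw [mem_union, mem_diag]
      by_cases h : p.1 = p.2
      · exact Or.inl ⟨hp1, h⟩
      · right
        simp only [CP, mem_filter, mem_product]
        refine ⟨⟨hS hp1, hS hp2⟩, h, ?_⟩
        apply close_of_height hs (hS hp2) (hS hp1) (h1 _ hp2) (h1 _ hp1) hs0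
        have a1 := hlow p.1
        have a2 := hup p.1
        have a3 := hlow p.2
        have a4 := hup p.2
        rw [hp3] at a1 a2
        rw [abs_le]
        constructor <;> nlinarith
    calc _ ≤ (S.diag ∪ CP X (50 * s)).card := card_le_card hsub
      _ ≤ S.diag.card + (CP X (50 * s)).card := card_union_le _ _
      _ = _ := by rw [diag_card]
  -- Cauchy-Schwarz
  have hcs : (S.card : ℝ) ^ 2 ≤ (S.image f).card * (S.card + (CP X (50 * s)).card) := by
    have e1 : S.card = ∑ i ∈ S.image f, (S.filter fun x => f x = i).card :=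
      card_eq_sum_card_image f S
    have e2 : ((S ×ˢ S).filter fun p => f p.1 = f p.2).card =
        ∑ i ∈ S.image f, (S.filter fun x => f x = i).card ^ 2 := by
      rw [card_eq_sum_card_fiberwise (f := fun p : ℂ × ℂ => f p.1) (t := S.image f)]
      · apply sum_congr rfl
        intro i _
        rw [sq, ← card_product]
        congr 1
        ext p
        simp only [mem_filter, mem_product]
        constructor
        · rintro ⟨⟨⟨a, b⟩, c⟩, d⟩
          exact ⟨⟨a, d⟩, b, c ▸ d⟩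
        · rintro ⟨⟨a, d⟩, b, c⟩
          exact ⟨⟨⟨a, b⟩, d.trans c.symm⟩, d⟩
      · intro p hp
        have hp' := (mem_filter.1 (mem_coe.1 hp)).1
        exact mem_coe.2 (mem_image_of_mem _ (mem_product.1 hp').1)
    have h3 := sq_sum_le_card_mul_sum_sq (s := S.image f)
      (f := fun i => ((S.filter fun x => f x = i).card : ℝ))
    have h4 : ((∑ i ∈ S.image f, (S.filter fun x => f x = i).card ^ 2 : ℕ) : ℝ) ≤
        S.card + (CP X (50 * s)).card := by
      rw [← e2]; exact_mod_cast hpairs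
    push_cast at h4
    calc (S.card : ℝ) ^ 2 = (∑ i ∈ S.image f, ((S.filter fun x => f x = i).card : ℝ)) ^ 2 := by
          rw [e1]; push_cast; rfl
      _ ≤ _ := h3
      _ ≤ _ := by
          apply mul_le_mul_of_nonneg_left _ (Nat.cast_nonneg _)
          exact h4
  -- a parity class
  obtain ⟨T, hT, hTpar, hTc⟩ : ∃ T ⊆ S.image f, (∀ i ∈ T, ∀ j ∈ T, i < j → i + 2 ≤ j) ∧
      (S.image f).card ≤ 2 * T.card := by
    have hc := card_filter_add_card_filter_not (s := S.image f) (fun i : ℤ => i % 2 = 0)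
    rcases le_total ((S.image f).filter fun i => i % 2 = 0).card
      ((S.image f).filter fun i => ¬ i % 2 = 0).card with hle | hle
    · refine ⟨(S.image f).filter fun i => ¬ i % 2 = 0, filter_subset _ _, ?_, by omega⟩
      intro i hi j hj hij
      have a := (mem_filter.1 hi).2
      have b := (mem_filter.1 hj).2
      omega
    · refine ⟨(S.image f).filter fun i => i % 2 = 0, filter_subset _ _, ?_, by omega⟩
      intro i hi j hj hij
      have a := (mem_filter.1 hi).2
      have b := (mem_filter.1 hj).2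
      omega
  -- representatives
  have hrep : ∀ i : ℤ, ∃ x : ℂ, i ∈ T → x ∈ S ∧ f x = i := by
    intro i
    by_cases hi : i ∈ T
    · obtain ⟨x, hx, hxi⟩ := mem_image.1 (hT hi)
      exact ⟨x, fun _ => ⟨hx, hxi⟩⟩
    · exact ⟨0, fun h => absurd h hi⟩
  choose g hg using hrep
  let o := T.orderEmbOfFin rfl
  have ho : ∀ k, o k ∈ T := fun k => T.orderEmbOfFin_mem rfl k
  refine ⟨T.card, fun k => if h : k < T.card then g (o ⟨k, h⟩) else 0, ?_, ?_, ?_⟩
  · intro k hk
    simp only [hk, dif_pos]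
    exact hS (hg _ (ho _)).1
  · intro j k hjk hk
    have hj : j < T.card := hjk.trans hk
    simp only [hk, hj, dif_pos]
    obtain ⟨a1, a2⟩ := hg _ (ho ⟨j, hj⟩)
    obtain ⟨b1, b2⟩ := hg _ (ho ⟨k, hk⟩)
    apply step_of hs (hS a1) (hS b1) (h1 _ a1) (h1 _ b1) hs0
    have hlt : o ⟨j, hj⟩ < o ⟨k, hk⟩ := (OrderEmbedding.lt_iff_lt o).2 hjk
    have h2 := hTpar _ (ho ⟨j, hj⟩) _ (ho ⟨k, hk⟩) hlt
    have h2' : ((o ⟨j, hj⟩ : ℤ) : ℝ) + 2 ≤ ((o ⟨k, hk⟩ : ℤ) : ℝ) := by exact_mod_cast h2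
    have c1 := hup (g (o ⟨j, hj⟩))
    have c2 := hlow (g (o ⟨k, hk⟩))
    rw [a2] at c1
    rw [b2] at c2
    nlinarith
  · refine hcs.trans ?_
    apply mul_le_mul_of_nonneg_right _ (by positivity)
    exact_mod_cast hTc

end Pool.Agent.Vpt
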