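import Pool.Agent.Lib.Vpd.Main
import Pool.Agent.Lib.Vpw.Pairs2
import Pool.Agent.Lib.Vpt.Rows
import Pool.Agent.Lib.Vpt.InvClose

/-!
# The main theorem for sets of complex numbers (MP_733c86_co)
-/

set_option autoImplicit false

open Finset Pool.Agent.Vps Pool.Agent.Vpd
open scoped ComplexConjugate

namespace Pool.Agent.Vpt

/-- The numerical conditions at the end. -/
theorem numT {n E e M κ P : ℝ} (hE : 1 ≤ E) (he : e ≤ E) (hn0 : 0 < n)
    (hE3 : 10 ^ 200 * E ^ 3 ≤ n ^ 2) (hnE : 10 ^ 100 * E ≤ n) (hM : n ^ 2 ≤ 10 ^ 53 * E ^ 2 * M)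
    (hκ1 : 1 ≤ κ) (hκlo : 10 ^ 54 * E ^ 2 ≤ κ * n) (hκhi : κ * n ≤ 2 * 10 ^ 54 * E ^ 2)
    (hP0 : 0 ≤ P) (hP : P ≤ 2 * 10 ^ 45 * E ^ 2) :
    (4 * (6 * κ + 1) * (M * e + P) + (3 * κ + 18 * (6 * κ + 1)) * P) / (n / 2000) + 2 * κ + n / κ
      < M - 1 := by
  have hκ0 : 0 < κ := by linarith
  have hE0 : 0 < E := by linarith
  have hE2 : 0 < E ^ 2 := by positivity
  have hM1 : 10 ^ 147 * E ≤ M := by
    have h1 : 10 ^ 53 * E ^ 2 * (10 ^ 147 * E) ≤ 10 ^ 53 * E ^ 2 * M := by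
      calc 10 ^ 53 * E ^ 2 * (10 ^ 147 * E) = 10 ^ 200 * E ^ 3 := by ring
        _ ≤ _ := hE3.trans hM
    exact le_of_mul_le_mul_left h1 (by positivity)
  have hM0 : 0 < M := by
    have : 0 < 10 ^ 147 * E := by positivity
    linarith
  -- κ E ≤ small n
  have hκE : 10 ^ 140 * (κ * E) ≤ n := by
    have h1 : n * (10 ^ 140 * (κ * E)) ≤ n * n := by
      calc n * (10 ^ 140 * (κ * E)) = 10 ^ 140 * E * (κ * n) := by ring
        _ ≤ 10 ^ 140 * E * (2 * 10 ^ 54 * E ^ 2) := mul_le_mul_of_nonneg_left hκhi (by positivity)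
        _ = 2 * 10 ^ 194 * E ^ 3 := by ring
        _ ≤ 10 ^ 200 * E ^ 3 := mul_le_mul_of_nonneg_right (by norm_num) (by positivity)
        _ ≤ n ^ 2 := hE3
        _ = n * n := by ring
    exact le_of_mul_le_mul_left h1 hn0
  have hκE' : 10 ^ 40 * κ ≤ E := by
    have h1 : n * (10 ^ 40 * κ) ≤ n * E := by
      calc n * (10 ^ 40 * κ) = 10 ^ 40 * (κ * n) := by ring
        _ ≤ 10 ^ 40 * (2 * 10 ^ 54 * E ^ 2) := mul_le_mul_of_nonneg_left hκhi (by positivity)
        _ = (2 * 10 ^ 94 * E) * E := by ring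
        _ ≤ (10 ^ 100 * E) * E := by
            apply mul_le_mul_of_nonneg_right _ hE0.le
            exact mul_le_mul_of_nonneg_right (by norm_num) hE0.le
        _ ≤ n * E := mul_le_mul_of_nonneg_right hnE hE0.le
    exact le_of_mul_le_mul_left h1 hn0
  have t1 : (4 * (6 * κ + 1) * (M * e + P) + (3 * κ + 18 * (6 * κ + 1)) * P) / (n / 2000) ≤
      M / 10 + E := by
    rw [div_le_iff₀ (by positivity)]
    have a1 : 4 * (6 * κ + 1) * (M * e + P) ≤ 28 * κ * (M * E + P) := by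
      have b1 : M * e ≤ M * E := mul_le_mul_of_nonneg_left he hM0.le
      have b0 : 0 ≤ M * E + P := by positivity
      calc 4 * (6 * κ + 1) * (M * e + P) ≤ 4 * (6 * κ + 1) * (M * E + P) :=
            mul_le_mul_of_nonneg_left (by linarith) (by positivity)
        _ ≤ 28 * κ * (M * E + P) := mul_le_mul_of_nonneg_right (by linarith) b0
    have a2 : (3 * κ + 18 * (6 * κ + 1)) * P ≤ 129 * κ * P :=
      mul_le_mul_of_nonneg_right (by linarith) hP0
    have a3 : 28 * κ * (M * E + P) + 129 * κ * P = 28 * (κ * E) * M + 157 * κ * P := by ring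
    have a4 : 28 * (κ * E) * M ≤ M / 10 * (n / 2000) := by
      have c1 : 28 * (κ * E) ≤ n / 20000 := by
        have : (10 : ℝ) ^ 140 * (κ * E) = 10 ^ 134 * (560000 * (κ * E)) * (100 / 56) := by ring
        have c2 : 0 < κ * E := by positivity
        have c3 : 560000 * (κ * E) ≤ 10 ^ 140 * (κ * E) :=
          mul_le_mul_of_nonneg_right (by norm_num) c2.le
        linarith
      calc 28 * (κ * E) * M ≤ n / 20000 * M := mul_le_mul_of_nonneg_right c1 hM0.le
        _ = M / 10 * (n / 2000) := by ring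
    have a5 : 157 * κ * P ≤ E * (n / 2000) := by
      calc 157 * κ * P ≤ 157 * κ * (2 * 10 ^ 45 * E ^ 2) :=
            mul_le_mul_of_nonneg_left hP (by positivity)
        _ = (314 * 10 ^ 45 * (κ * E)) * E := by ring
        _ ≤ (n / 2000) * E := by
            apply mul_le_mul_of_nonneg_right _ hE0.le
            have c2 : 0 < κ * E := by positivity
            have c3 : 2000 * (314 * 10 ^ 45 * (κ * E)) ≤ 10 ^ 140 * (κ * E) := by
              have : 2000 * (314 * 10 ^ 45 * (κ * E)) = (2000 * 314 * 10 ^ 45) * (κ * E) := by ring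
              rw [this]
              exact mul_le_mul_of_nonneg_right (by norm_num) c2.le
            linarith
        _ = E * (n / 2000) := by ring
    have a6 : (M / 10 + E) * (n / 2000) = M / 10 * (n / 2000) + E * (n / 2000) := by ring
    linarith
  have t2 : n / κ ≤ M / 10 := by
    rw [div_le_iff₀ hκ0]
    have h1 : 10 ^ 53 * E ^ 2 * n * n ≤ 10 ^ 53 * E ^ 2 * n * (M / 10 * κ) := by
      calc 10 ^ 53 * E ^ 2 * n * n = 10 ^ 53 * E ^ 2 * n ^ 2 := by ring
        _ ≤ 10 ^ 53 * E ^ 2 * (10 ^ 53 * E ^ 2 * M) :=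
            mul_le_mul_of_nonneg_left hM (by positivity)
        _ = 10 ^ 53 * E ^ 2 * (M / 10) * (10 ^ 54 * E ^ 2) := by ring
        _ ≤ 10 ^ 53 * E ^ 2 * (M / 10) * (κ * n) := mul_le_mul_of_nonneg_left hκlo (by positivity)
        _ = 10 ^ 53 * E ^ 2 * n * (M / 10 * κ) := by ring
    exact le_of_mul_le_mul_left h1 (by positivity)
  have hEM : 100 * E ≤ M := by
    have : 100 * E ≤ 10 ^ 147 * E := mul_le_mul_of_nonneg_right (by norm_num) hE0.le
    linarith
  have hκM : 2 * κ ≤ E := by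
    have : 2 * κ ≤ 10 ^ 40 * κ := mul_le_mul_of_nonneg_right (by norm_num) hκ0.le
    linarith
  linarith

theorem mainT {X : Finset ℂ} {e : ℝ} (h : Sys X e) (h0 : ∑ x ∈ X, x = 0)
    (h1 : ∑ x ∈ X, ‖x‖ ^ 2 = X.card) (hcol : NoCol X) (hcirc : NoCirc X)
    (hE3 : 10 ^ 200 * (e + 1) ^ 3 ≤ (X.card : ℝ) ^ 2) : False := by
  classical
  have he0 := h.nonneg
  by_cases hE2 : 10 ^ 40 * (e + 1) ^ 2 ≤ (X.card : ℝ)
  · exact mainA h h0 h1 hcol hcirc hE2
  push Not at hE2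
  have hE : 1 ≤ e + 1 := by linarith
  have hE0 : 0 < e + 1 := by linarith
  have hn0' : (0 : ℝ) ≤ X.card := by positivity
  have hcube : (e + 1) ^ 2 ≤ (e + 1) ^ 3 := pow_le_pow_right₀ hE (by norm_num)
  have hnE : 10 ^ 100 * (e + 1) ≤ (X.card : ℝ) := by
    have h2 : (10 ^ 100 * (e + 1)) ^ 2 ≤ (X.card : ℝ) ^ 2 := by
      calc (10 ^ 100 * (e + 1)) ^ 2 = 10 ^ 200 * (e + 1) ^ 2 := by ring
        _ ≤ 10 ^ 200 * (e + 1) ^ 3 := mul_le_mul_of_nonneg_left hcube (by positivity)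
        _ ≤ _ := hE3
    exact (pow_le_pow_iff_left₀ (by positivity) hn0' (by norm_num)).1 h2
  have hnpos : (0 : ℝ) < X.card := by
    have : 0 < 10 ^ 100 * (e + 1) := by positivity
    linarith
  have hne : X.Nonempty := by
    rw [← Finset.card_pos]
    exact Nat.cast_pos.1 hnpos
  set n : ℝ := (X.card : ℝ) with hn
  have hcardE : (X.card : ℝ) = n := rfl
  have hnE40 : 10 ^ 40 * (e + 1) ≤ n := by
    have : 10 ^ 40 * (e + 1) ≤ 10 ^ 100 * (e + 1) :=
      mul_le_mul_of_nonneg_right (by norm_num) hE0.le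
    linarith
  have hA : Ann X e (5 * e / X.card) := annulus h hne h0 h1 (by
    have : 20 * e ≤ 10 ^ 40 * (e + 1) := by linarith
    exact this.trans hnE40)
  set s : ℝ := 2 * (10 ^ 5 * (e + 1) / X.card) ^ 2 with hs
  have hs0 : 0 < s := by positivity
  have hSlp : Slp X s := slp hA hnE40
  have hPb : ((CP X (50 * s)).card : ℝ) ≤ 10 ^ 45 * (e + 1) ^ 2 :=
    Pool.Agent.Vpw.pairs_bound2 hA hcol hnE40 hSlp
  set g : ℝ := 2 * 10 ^ 12 * (e + 1) / n with hg
  have hg0 : 0 < g := by positivity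
  have hng : n * g = 2 * 10 ^ 12 * (e + 1) := by rw [hg, mul_div_cancel₀ _ hnpos.ne']
  have hg8 : g ≤ 1 / 10 ^ 8 := by
    rw [hg, div_le_iff₀ hnpos]
    linarith
  have hT0 : (0 : ℝ) ≤ 5 * e / X.card := by positivity
  have hTg : 5 * e / X.card ≤ g / 10 ^ 11 := by
    rw [hg, div_div, mul_comm n, ← div_div]
    apply div_le_div_of_nonneg_right _ hnpos.le
    rw [le_div_iff₀ (by norm_num)]
    linarith
  have hng' : 2 * 10 ^ 12 * (e + 1) ≤ X.card * g := hng.ge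
  have hT6 : 5 * e / X.card ≤ 1 / 10 ^ 6 := by
    refine hTg.trans ?_
    rw [div_le_iff₀ (by norm_num)]
    linarith
  -- many points near 1
  have hScard : n / 3000 ≤ ((ball X 1 (1 / 200)).card : ℝ) := by
    obtain ⟨x, hx, hx1⟩ := density hA hg0 hg8 hTg hng' (u := 1) (by simp)
    have h2 := avg hA (σ := 4 / 1000) (by linarith) (by norm_num) (by norm_num) hx
    have h3 : ball X x (4 / 1000) ⊆ ball X 1 (1 / 200) := by
      intro y hy
      rw [mem_ball] at hy ⊢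
      refine ⟨hy.1, ?_⟩
      have := dist_triangle y x 1
      linarith [hy.2]
    have h4 : ((ball X x (4 / 1000)).card : ℝ) ≤ ((ball X 1 (1 / 200)).card : ℝ) := by
      exact_mod_cast Finset.card_le_card h3
    rw [hcardE] at h2
    linarith
  obtain ⟨M, p, hpX, hp, hM⟩ := rows_of hSlp hs0 (S := ball X 1 (1 / 200)) ball_subset
    (fun x hx => (mem_ball.1 hx).2)
  have hSn : ((ball X 1 (1 / 200)).card : ℝ) ≤ n := by
    have h2 : ((ball X 1 (1 / 200)).card : ℝ) ≤ (X.card : ℝ) := by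
      exact_mod_cast Finset.card_le_card (ball_subset (X := X) (z := 1) (ρ := 1 / 200))
    exact h2
  have hM' : n ^ 2 ≤ 10 ^ 53 * (e + 1) ^ 2 * M := by
    have h2 : (n / 3000) ^ 2 ≤ ((ball X 1 (1 / 200)).card : ℝ) ^ 2 :=
      pow_le_pow_left₀ (by positivity) hScard 2
    have h3 : ((ball X 1 (1 / 200)).card : ℝ) + (CP X (50 * s)).card ≤
        2 * 10 ^ 45 * (e + 1) ^ 2 := by
      have h4 : (10 : ℝ) ^ 40 * (e + 1) ^ 2 ≤ 10 ^ 45 * (e + 1) ^ 2 :=
        mul_le_mul_of_nonneg_right (by norm_num) (by positivity)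
      linarith
    have h5 : 2 * (M : ℝ) * (((ball X 1 (1 / 200)).card : ℝ) + (CP X (50 * s)).card) ≤
        2 * (M : ℝ) * (2 * 10 ^ 45 * (e + 1) ^ 2) := mul_le_mul_of_nonneg_left h3 (by positivity)
    have h6 : n ^ 2 ≤ 36 * 10 ^ 51 * (e + 1) ^ 2 * M := by
      have h7 : (n / 3000) ^ 2 = n ^ 2 / (9 * 10 ^ 6) := by ring
      rw [h7] at h2
      have h8 : n ^ 2 / (9 * 10 ^ 6) ≤ 2 * (M : ℝ) * (2 * 10 ^ 45 * (e + 1) ^ 2) := by linarith
      rw [div_le_iff₀ (by norm_num)] at h8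
      linarith
    have h9 : 36 * 10 ^ 51 * (e + 1) ^ 2 * (M : ℝ) ≤ 10 ^ 53 * (e + 1) ^ 2 * M := by
      have : (0 : ℝ) ≤ (e + 1) ^ 2 * M := by positivity
      linarith
    exact h6.trans h9
  -- the number of decrements
  set κ : ℕ := ⌈10 ^ 54 * (e + 1) ^ 2 / n⌉₊ with hκ
  have hq0 : 0 < 10 ^ 54 * (e + 1) ^ 2 / n := by positivity
  have hκpos : 0 < κ := Nat.ceil_pos.2 hq0
  have hκ1 : (1 : ℝ) ≤ κ := by exact_mod_cast hκpos
  have hκlo : 10 ^ 54 * (e + 1) ^ 2 ≤ κ * n := by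
    have h2 : 10 ^ 54 * (e + 1) ^ 2 / n ≤ κ := Nat.le_ceil _
    rwa [div_le_iff₀ hnpos] at h2
  have hκhi : κ * n ≤ 2 * 10 ^ 54 * (e + 1) ^ 2 := by
    have h2 : (κ : ℝ) < 10 ^ 54 * (e + 1) ^ 2 / n + 1 := Nat.ceil_lt_add_one hq0.le
    have h3 : (κ : ℝ) * n ≤ (10 ^ 54 * (e + 1) ^ 2 / n + 1) * n :=
      mul_le_mul_of_nonneg_right h2.le hnpos.le
    have h4 : (10 ^ 54 * (e + 1) ^ 2 / n + 1) * n = 10 ^ 54 * (e + 1) ^ 2 + n := by
      field_simp
    have h5 : (10 : ℝ) ^ 40 * (e + 1) ^ 2 ≤ 10 ^ 54 * (e + 1) ^ 2 :=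
      mul_le_mul_of_nonneg_right (by norm_num) (by positivity)
    linarith
  have hpinj : ∀ i < M, ∀ j < M, p i = p j → i = j := by
    intro i hi j hj hij
    rcases lt_trichotomy i j with hlt | heq | hgt
    · have := (hp i j hlt hj).up
      rw [hij] at this
      exact absurd this (lt_irrefl _)
    · exact heq
    · have := (hp j i hgt hi).up
      rw [hij] at this
      exact absurd this (lt_irrefl _)
  have hP1 : ∑ k ∈ range M, ((coin X (p k)).card : ℝ) ≤ 2 * 10 ^ 45 * (e + 1) ^ 2 := by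
    have h2 : ∑ k ∈ range M, ((coin X (p k)).card : ℝ) =
        ∑ x ∈ (range M).image p, ((coin X x).card : ℝ) := by
      rw [Finset.sum_image (fun a ha b hb hab => hpinj a (by simpa using ha) b
        (by simpa using hb) hab)]
    rw [h2]
    have a3 := sum_coin_pairs hA hT6 hcol hSlp
    refine le_trans (Finset.sum_le_sum_of_subset_of_nonneg ?_ (fun _ _ _ => by positivity))
      (a3.trans (by linarith))
    intro x hx
    rw [Finset.mem_image] at hx
    obtain ⟨i, hi, rfl⟩ := hx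
    exact hpX i (Finset.mem_range.1 hi)
  have hP2 : ∑ k ∈ range (M - 1), ((Unst X (p k) (p (k + 1))).card : ℝ) ≤
      2 * 10 ^ 45 * (e + 1) ^ 2 := (sum_unst_pairs hA hT6 hSlp hp).trans (by linarith)
  refine rows_contra hA hg0 hg8 hTg hng' hcol hcirc hpX hp (κ := κ) hκpos ?_ hP1 hP2 ?_
  · push_cast
    rw [hg, mul_div_assoc', div_le_iff₀ hnpos]
    have h2 : n * (6 * (κ : ℝ) * (2 * 10 ^ 12 * (e + 1))) ≤ n * (1 / 10 ^ 5 * n) := by
      calc n * (6 * (κ : ℝ) * (2 * 10 ^ 12 * (e + 1))) =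
            12 * 10 ^ 12 * (e + 1) * (κ * n) := by ring
        _ ≤ 12 * 10 ^ 12 * (e + 1) * (2 * 10 ^ 54 * (e + 1) ^ 2) :=
            mul_le_mul_of_nonneg_left hκhi (by positivity)
        _ = 1 / 10 ^ 5 * (24 * 10 ^ 71 * (e + 1) ^ 3) := by ring
        _ ≤ 1 / 10 ^ 5 * (10 ^ 200 * (e + 1) ^ 3) := by
            apply mul_le_mul_of_nonneg_left _ (by positivity)
            exact mul_le_mul_of_nonneg_right (by norm_num) (by positivity)
        _ ≤ 1 / 10 ^ 5 * n ^ 2 := mul_le_mul_of_nonneg_left hE3 (by positivity)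
        _ = n * (1 / 10 ^ 5 * n) := by ring
    exact le_of_mul_le_mul_left h2 hnpos
  · rw [hcardE]
    exact numT (E := e + 1) hE (by linarith) hnpos hE3 hnE hM' hκ1 hκlo hκhi (by positivity) le_rfl

end Pool.Agent.Vpt
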