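import Pool.Agent.Lib.Vps.NoTwin

/-!
# Equal sums over a block, with errors (MP_733c86_co)
-/

set_option autoImplicit false

open Finset Pool.Agent.Vps Pool.Agent.Vps.BlockSumAux
open scoped ComplexConjugate

namespace Pool.Agent.Vpt

open Classical in
/-- The distance `d` is seen by `x` exactly once on each side. -/
def Fine (X : Finset ℂ) (x : ℂ) (d : ℝ) : Prop :=
  1 < (X.filter fun z => dist x z = d).card ∧ d ∉ coin X x

/-- At most two points of the block have the same distance. -/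
theorem fib_le {X : Finset ℂ} {e : ℝ} (h : Sys X e) {x : ℂ} (hx : x ∈ X) {b1 b2 d : ℝ}
    (hb1 : 3 / 10 ≤ b1) (hd : b1 ≤ d) :
    ((SL X x b1 b2).filter fun y => dist x y = d).card ≤ 2 := by
  refine (Finset.card_le_card ?_).trans (h.valid x hx d)
  intro y hy
  rw [Finset.mem_filter, SL, Finset.mem_filter] at hy
  refine Finset.mem_filter.2 ⟨hy.1.1, ?_, hy.2⟩
  rintro rfl
  have := hy.2
  rw [dist_self] at this
  linarith

/-- A fine distance is seen exactly once. -/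
theorem fib_one {X : Finset ℂ} {x : ℂ} {b1 b2 d : ℝ} (hb1 : 3 / 10 ≤ b1) (hb2 : b2 ≤ 19 / 10)
    (hd : d ∈ Dset X) (h1 : b1 ≤ d) (h2 : d ≤ b2) (hf : Fine X x d) :
    ((SL X x b1 b2).filter fun y => dist x y = d).card = 1 := by
  have hf1 := hf.1
  obtain ⟨y, hy, hyd⟩ := SL_surj (X := X) (x := x) (b1 := d) (b2 := d) (by linarith) (by linarith)
    (fun d' _ h3 h4 => by
      have : d' = d := le_antisymm h4 h3
      rw [this]; exact hf.1)
    (fun d' _ h3 h4 => by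
      have : d' = d := le_antisymm h4 h3
      rw [this]; exact hf.2) hd le_rfl le_rfl
  rw [Finset.card_eq_one]
  rw [SL, Finset.mem_filter] at hy
  refine ⟨y, ?_⟩
  ext z
  rw [Finset.mem_filter, Finset.mem_singleton, SL, Finset.mem_filter]
  constructor
  · rintro ⟨⟨hz, h3, h4, h5⟩, h6⟩
    by_contra hne
    exact hf.2 (Finset.mem_filter.2 ⟨hd, by linarith, by linarith, z, hz, y, hy.1, hne, h6, hyd,
      ⟨fun _ => hy.2.2.2, fun _ => h5⟩⟩)
  · rintro rfl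
    exact ⟨⟨hy.1, by rw [hyd]; exact ⟨h1, h2, hy.2.2.2⟩⟩, hyd⟩

/-- The sum over the block sorted by the distances. -/
theorem fib_sum {X : Finset ℂ} {x : ℂ} (hx : x ∈ X) {b1 b2 : ℝ} (hb1 : 3 / 10 ≤ b1) :
    ∑ y ∈ SL X x b1 b2, (dist x y ^ 2 - b1 ^ 2) =
      ∑ d ∈ (Dset X).filter (fun d => b1 ≤ d ∧ d ≤ b2),
        (((SL X x b1 b2).filter fun y => dist x y = d).card : ℝ) * (d ^ 2 - b1 ^ 2) := by
  rw [← Finset.sum_fiberwise_of_maps_to (g := fun y => dist x y)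
    (t := (Dset X).filter (fun d => b1 ≤ d ∧ d ≤ b2)) ?_]
  · refine Finset.sum_congr rfl fun d _ => ?_
    rw [← nsmul_eq_mul, ← Finset.sum_const]
    refine Finset.sum_congr rfl fun y hy => ?_
    rw [(Finset.mem_filter.1 hy).2]
  · intro y hy
    rw [SL, Finset.mem_filter] at hy
    refine Finset.mem_filter.2 ⟨dist_mem_Dset hx hy.1 ?_, hy.2.1, hy.2.2.1⟩
    intro hxy
    have := hy.2.1
    rw [hxy, dist_self] at this
    linarith

/-- PROOF. As `Vps.block_sum` (BlockSum.lean), with errors. `S = SL X x1 b1 b2 = SL X x2 b1 b2`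
(`SL_sub` twice, it needs only `hiso`). With `f_k d = card {y ∈ S | dist x_k y = d}`,
`∑ y ∈ S, (dist x_k y ^ 2 - b1 ^ 2) = ∑ d ∈ Dset X, b1 ≤ d ≤ b2, f_k d * (d ^ 2 - b1 ^ 2)`. For
`d ∉ Z` `f_1 d = f_2 d = 1` (`SL_surj` type argument: `Fine`), for `d ∈ Z` `f_k d ≤ 2` (`valid`), and
`0 ≤ d ^ 2 - b1 ^ 2 ≤ ℓ * 3.8`. So the difference of the two sums is at most
`2 * 3.8 * ℓ * card (Z ∩ [b1, b2])`. Second claim: for `d ∈ Dset X ∩ [b1, b2]`, `d ∉ Z`, there is a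
`y ∈ S` with `dist x1 y = d`. -/
theorem block_err {X : Finset ℂ} {e T : ℝ} (h : Ann X e T) (hT : T ≤ 1 / 10 ^ 6) {δ ℓ : ℝ}
    (hδ : δ ≤ 1 / 10 ^ 6) {x1 x2 : ℂ} (hx1 : x1 ∈ X) (hx2 : x2 ∈ X) (h12 : dist x1 x2 ≤ δ)
    {b1 b2 : ℝ} (hb1 : 3 / 10 ≤ b1) (hb2 : b2 ≤ 19 / 10) (hb : b1 ≤ b2) (hbl : b2 ≤ b1 + ℓ)
    (hiso : ∀ d ∈ Dset X, b1 - δ ≤ d → d ≤ b2 + δ → b1 ≤ d ∧ d ≤ b2) {Z : Finset ℝ}
    (hZ : ∀ d ∈ Dset X, b1 ≤ d → d ≤ b2 → d ∉ Z → Fine X x1 d ∧ Fine X x2 d) :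
    |∑ y ∈ SL X x1 b1 b2, (dist x1 y ^ 2 - dist x2 y ^ 2)| ≤
        8 * ℓ * ((Z.filter fun d => b1 ≤ d ∧ d ≤ b2).card : ℝ) ∧
      (((Dset X).filter fun d => b1 ≤ d ∧ d ≤ b2).card : ℝ) ≤
        ((SL X x1 b1 b2).card : ℝ) + ((Z.filter fun d => b1 ≤ d ∧ d ≤ b2).card : ℝ) := by
  have hSS : SL X x1 b1 b2 = SL X x2 b1 b2 :=
    Finset.Subset.antisymm (SL_sub h hT hδ hx1 hx2 h12 hb1 hb2 hiso)
      (SL_sub h hT hδ hx2 hx1 (by rw [dist_comm]; exact h12) hb1 hb2 hiso)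
  have hℓ : 0 ≤ ℓ := by linarith
  set B := (Dset X).filter (fun d => b1 ≤ d ∧ d ≤ b2) with hB
  constructor
  · have e1 : ∑ y ∈ SL X x1 b1 b2, (dist x1 y ^ 2 - dist x2 y ^ 2) =
        ∑ d ∈ B, ((((SL X x1 b1 b2).filter fun y => dist x1 y = d).card : ℝ) -
          (((SL X x2 b1 b2).filter fun y => dist x2 y = d).card : ℝ)) * (d ^ 2 - b1 ^ 2) := by
      calc ∑ y ∈ SL X x1 b1 b2, (dist x1 y ^ 2 - dist x2 y ^ 2) =
          ∑ y ∈ SL X x1 b1 b2, (dist x1 y ^ 2 - b1 ^ 2) -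
            ∑ y ∈ SL X x1 b1 b2, (dist x2 y ^ 2 - b1 ^ 2) := by
            rw [← Finset.sum_sub_distrib]
            exact Finset.sum_congr rfl fun y _ => by ring
        _ = ∑ y ∈ SL X x1 b1 b2, (dist x1 y ^ 2 - b1 ^ 2) -
            ∑ y ∈ SL X x2 b1 b2, (dist x2 y ^ 2 - b1 ^ 2) := by rw [← hSS]
        _ = _ := by
            rw [fib_sum hx1 hb1, fib_sum hx2 hb1, ← Finset.sum_sub_distrib]
            exact Finset.sum_congr rfl fun d _ => by ring
    rw [e1]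
    have hterm : ∀ d ∈ B, |((((SL X x1 b1 b2).filter fun y => dist x1 y = d).card : ℝ) -
          (((SL X x2 b1 b2).filter fun y => dist x2 y = d).card : ℝ)) * (d ^ 2 - b1 ^ 2)| ≤
        if d ∈ Z then 8 * ℓ else 0 := by
      intro d hd
      obtain ⟨hdD, h1, h2⟩ := Finset.mem_filter.1 hd
      split_ifs with hdZ
      · have f1 : (((SL X x1 b1 b2).filter fun y => dist x1 y = d).card : ℝ) ≤ 2 := by
          exact_mod_cast fib_le h.toSys hx1 hb1 h1
        have f2 : (((SL X x2 b1 b2).filter fun y => dist x2 y = d).card : ℝ) ≤ 2 := by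
          exact_mod_cast fib_le h.toSys hx2 hb1 h1
        have g1 : (0 : ℝ) ≤ (((SL X x1 b1 b2).filter fun y => dist x1 y = d).card : ℝ) :=
          Nat.cast_nonneg _
        have g2 : (0 : ℝ) ≤ (((SL X x2 b1 b2).filter fun y => dist x2 y = d).card : ℝ) :=
          Nat.cast_nonneg _
        have w0 : 0 ≤ d ^ 2 - b1 ^ 2 := by nlinarith
        have w1 : d ^ 2 - b1 ^ 2 ≤ 4 * ℓ := by
          have : d ^ 2 - b1 ^ 2 = (d - b1) * (d + b1) := by ring
          rw [this]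
          nlinarith
        rw [abs_mul, abs_of_nonneg w0]
        have hab : |(((SL X x1 b1 b2).filter fun y => dist x1 y = d).card : ℝ) -
            (((SL X x2 b1 b2).filter fun y => dist x2 y = d).card : ℝ)| ≤ 2 := by
          rw [abs_le]
          constructor <;> linarith
        calc _ ≤ 2 * (4 * ℓ) := mul_le_mul hab w1 w0 (by norm_num)
          _ = 8 * ℓ := by ring
      · obtain ⟨k1, k2⟩ := hZ d hdD h1 h2 hdZ
        rw [fib_one hb1 hb2 hdD h1 h2 k1, fib_one hb1 hb2 hdD h1 h2 k2, sub_self, zero_mul,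
          abs_zero]
    refine (Finset.abs_sum_le_sum_abs _ _).trans ((Finset.sum_le_sum hterm).trans ?_)
    rw [← Finset.sum_filter, Finset.sum_const, nsmul_eq_mul, mul_comm]
    refine mul_le_mul_of_nonneg_left ?_ (by linarith)
    have hsub : (B.filter fun d => d ∈ Z) ⊆ Z.filter fun d => b1 ≤ d ∧ d ≤ b2 := by
      intro d hd
      obtain ⟨hd1, hd2⟩ := Finset.mem_filter.1 hd
      exact Finset.mem_filter.2 ⟨hd2, (Finset.mem_filter.1 hd1).2⟩
    exact_mod_cast Finset.card_le_card hsub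
  · have hsub : B ⊆ (SL X x1 b1 b2).image (fun y => dist x1 y) ∪
        Z.filter fun d => b1 ≤ d ∧ d ≤ b2 := by
      intro d hd
      obtain ⟨hdD, h1, h2⟩ := Finset.mem_filter.1 hd
      by_cases hdZ : d ∈ Z
      · exact Finset.mem_union_right _ (Finset.mem_filter.2 ⟨hdZ, h1, h2⟩)
      · have k := fib_one hb1 hb2 hdD h1 h2 (hZ d hdD h1 h2 hdZ).1
        obtain ⟨y, hy⟩ := Finset.card_pos.1 (by rw [k]; norm_num :
          0 < ((SL X x1 b1 b2).filter fun y => dist x1 y = d).card)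
        obtain ⟨hy1, hy2⟩ := Finset.mem_filter.1 hy
        exact Finset.mem_union_left _ (Finset.mem_image.2 ⟨y, hy1, hy2⟩)
    have h1 := (Finset.card_le_card hsub).trans ((Finset.card_union_le _ _).trans
      (Nat.add_le_add_right Finset.card_image_le _))
    exact_mod_cast h1

/-- PROOF. As `Vps.vec_of_sum` (same `α`, `β`): there the sum is
`2 card S * (β t - α n) / ‖x1‖ ^ 2` up to sign, `n = Re ((x1 - x2) conj x1)`,
`t = Im ((x1 - x2) conj x1)`; so `|α n - β t| ≤ σ ‖x1‖ ^ 2 / (2 card S) ≤ σ / card S`. -/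
theorem vec_of_sum_err {T δ σ : ℝ} (hT : T ≤ 1 / 10 ^ 6) (hδ : δ ≤ 1 / 10 ^ 6) {x1 x2 : ℂ}
    (hx1 : |‖x1‖ ^ 2 - 1| ≤ T) (h12 : dist x1 x2 ≤ δ) {S : Finset ℂ} (hne : S.Nonempty)
    {m M p q : ℝ} (hn : ∀ y ∈ S, m ≤ (y * conj x1).re ∧ (y * conj x1).re ≤ M)
    (ht : ∀ y ∈ S, p ≤ (y * conj x1).im ∧ (y * conj x1).im ≤ q)
    (hsum : |∑ y ∈ S, (dist x1 y ^ 2 - dist x2 y ^ 2)| ≤ σ) :
    ∃ α β : ℝ, |α * ((x1 - x2) * conj x1).re - β * ((x1 - x2) * conj x1).im| ≤ σ / S.card ∧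
      1 - M - 1 / 1000 ≤ α ∧ α ≤ 1 - m + 1 / 1000 ∧ p - 1 / 1000 ≤ β ∧ β ≤ q + 1 / 1000 := by
  have hx0 : x1 ≠ 0 := by
    rintro rfl
    rw [norm_zero, abs_le] at hx1
    linarith [hx1.1]
  have hsq := abs_le.1 hx1
  have hnx : ‖x1‖ ≤ 1001 / 1000 := by
    by_contra hcon
    push Not at hcon
    nlinarith [norm_nonneg x1]
  have hxpos : 0 < ‖x1‖ ^ 2 := by linarith [hsq.1]
  -- frame coordinates
  have f1 : (x1 * conj x1).re = ‖x1‖ ^ 2 := by
    rw [Complex.mul_conj, Complex.normSq_eq_norm_sq, Complex.ofReal_re]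
  have f2 : (x1 * conj x1).im = 0 := by
    rw [Complex.mul_conj, Complex.ofReal_im]
  have hv : ‖(x1 - x2) * conj x1‖ ≤ 1 / 10 ^ 5 := by
    rw [norm_mul, Complex.norm_conj, ← Complex.dist_eq]
    have : dist x1 x2 * ‖x1‖ ≤ 1 / 10 ^ 6 * (1001 / 1000) :=
      mul_le_mul (h12.trans hδ) hnx (norm_nonneg _) (by norm_num)
    linarith
  have hvr := abs_le.1 ((Complex.abs_re_le_norm ((x1 - x2) * conj x1)).trans hv)
  have hvi := abs_le.1 ((Complex.abs_im_le_norm ((x1 - x2) * conj x1)).trans hv)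
  have f3 : (x2 * conj x1).re = ‖x1‖ ^ 2 - ((x1 - x2) * conj x1).re := by
    rw [sub_mul, Complex.sub_re, f1]; ring
  have f4 : (x2 * conj x1).im = - ((x1 - x2) * conj x1).im := by
    rw [sub_mul, Complex.sub_im, f2]; ring
  set nv := ((x1 - x2) * conj x1).re with hnv
  set tv := ((x1 - x2) * conj x1).im with htv
  set N : ℝ := 2 * ‖x1‖ ^ 2 - nv with hN
  set τ : ℝ := -tv with hτ
  have hterm : ∀ y, dist x1 y ^ 2 - dist x2 y ^ 2 =
      (nv * (N - 2 * (y * conj x1).re) + tv * (τ - 2 * (y * conj x1).im)) / ‖x1‖ ^ 2 := by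
    intro y
    rw [dist_sq_sub, re_mul_conj_frame hx0, ← hnv, ← htv]
    congr 2
    · congr 1
      have : (x1 + x2 - 2 * y) * conj x1 = x1 * conj x1 + x2 * conj x1 - 2 * (y * conj x1) := by
        ring
      rw [this, Complex.sub_re, Complex.add_re, f1, f3, hN]
      have h2 : (2 * (y * conj x1)).re = 2 * (y * conj x1).re := by simp
      rw [h2]; ring
    · congr 1
      have : (x1 + x2 - 2 * y) * conj x1 = x1 * conj x1 + x2 * conj x1 - 2 * (y * conj x1) := by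
        ring
      rw [this, Complex.sub_im, Complex.add_im, f2, f4, hτ]
      have h2 : (2 * (y * conj x1)).im = 2 * (y * conj x1).im := by simp
      rw [h2]; ring
  have hσ : 0 ≤ σ := (abs_nonneg _).trans hsum
  rw [Finset.sum_congr rfl (fun y _ => hterm y), ← Finset.sum_div, abs_div, abs_of_pos hxpos,
    div_le_iff₀ hxpos] at hsum
  have hk : (0 : ℝ) < S.card := by exact_mod_cast hne.card_pos
  set k : ℝ := (S.card : ℝ) with hkdef
  set A : ℝ := ∑ y ∈ S, (y * conj x1).re with hA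
  set B : ℝ := ∑ y ∈ S, (y * conj x1).im with hB
  have hlinA : ∑ y ∈ S, (N - 2 * (y * conj x1).re) = k * N - 2 * A := by
    rw [Finset.sum_sub_distrib, ← Finset.mul_sum, Finset.sum_const, nsmul_eq_mul]
  have hlinB : ∑ y ∈ S, (τ - 2 * (y * conj x1).im) = k * τ - 2 * B := by
    rw [Finset.sum_sub_distrib, ← Finset.mul_sum, Finset.sum_const, nsmul_eq_mul]
  have hlin : |nv * (k * N - 2 * A) + tv * (k * τ - 2 * B)| ≤ σ * ‖x1‖ ^ 2 := by
    refine le_trans (le_of_eq ?_) hsum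
    rw [Finset.sum_add_distrib, ← Finset.mul_sum, ← Finset.mul_sum, hlinA, hlinB]
  have hA1 : k * m ≤ A := by
    have := Finset.card_nsmul_le_sum S (fun y => (y * conj x1).re) m (fun y hy => (hn y hy).1)
    rwa [nsmul_eq_mul] at this
  have hA2 : A ≤ k * M := by
    have := Finset.sum_le_card_nsmul S (fun y => (y * conj x1).re) M (fun y hy => (hn y hy).2)
    rwa [nsmul_eq_mul] at this
  have hB1 : k * p ≤ B := by
    have := Finset.card_nsmul_le_sum S (fun y => (y * conj x1).im) p (fun y hy => (ht y hy).1)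
    rwa [nsmul_eq_mul] at this
  have hB2 : B ≤ k * q := by
    have := Finset.sum_le_card_nsmul S (fun y => (y * conj x1).im) q (fun y hy => (ht y hy).2)
    rwa [nsmul_eq_mul] at this
  have hA1' : m ≤ A / k := by rw [le_div_iff₀ hk]; linarith
  have hA2' : A / k ≤ M := by rw [div_le_iff₀ hk]; linarith
  have hB1' : p ≤ B / k := by rw [le_div_iff₀ hk]; linarith
  have hB2' : B / k ≤ q := by rw [div_le_iff₀ hk]; linarith
  refine ⟨N / 2 - A / k, B / k - τ / 2, ?_, ?_, ?_, ?_, ?_⟩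
  · rw [le_div_iff₀ hk]
    have h1 : ((N / 2 - A / k) * nv - (B / k - τ / 2) * tv) * k =
        (nv * (k * N - 2 * A) + tv * (k * τ - 2 * B)) / 2 := by
      have h2 : k * (A / k) = A := mul_div_cancel₀ _ hk.ne'
      have h3 : k * (B / k) = B := mul_div_cancel₀ _ hk.ne'
      linear_combination (-nv) * h2 - tv * h3
    have h4 : |(N / 2 - A / k) * nv - (B / k - τ / 2) * tv| * k =
        |nv * (k * N - 2 * A) + tv * (k * τ - 2 * B)| / 2 := by
      rw [← abs_of_pos hk, ← abs_mul, abs_of_pos hk, h1, abs_div, abs_of_pos (by norm_num :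
        (0 : ℝ) < 2)]
    rw [h4]
    have h5 : σ * ‖x1‖ ^ 2 ≤ σ * 2 := mul_le_mul_of_nonneg_left (by linarith [hsq.2]) hσ
    linarith
  · rw [hN]; linarith [hvr.1, hvr.2, hsq.1]
  · rw [hN]; linarith [hvr.1, hvr.2, hsq.2]
  · rw [hτ]; linarith [hvi.1, hvi.2]
  · rw [hτ]; linarith [hvi.1, hvi.2]

end Pool.Agent.Vpt
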