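import Mathlib

/-!
# Isolated blocks of a finite set of reals (MP_733c86_co). Pure real/finset combinatorics.
-/

set_option autoImplicit false

open Finset

namespace Pool.Agent.Vpt

/-- The `p ∈ J` are disjoint blocks `[p.1, p.2]` of length at most `ℓ` in `[A, A']`, isolated from the
rest of `D` by `δ`. -/
structure Blocks (D : Finset ℝ) (δ ℓ A A' : ℝ) (J : Finset (ℝ × ℝ)) : Prop where
  le : ∀ p ∈ J, p.1 ≤ p.2 ∧ p.2 ≤ p.1 + ℓ ∧ A ≤ p.1 ∧ p.2 ≤ A'
  iso : ∀ p ∈ J, ∀ d ∈ D, p.1 - δ ≤ d → d ≤ p.2 + δ → p.1 ≤ d ∧ d ≤ p.2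
  disj : ∀ p ∈ J, ∀ q ∈ J, p ≠ q → p.2 < q.1 ∨ q.2 < p.1

/-- There are many `δ`-separated elements of `D` within `ℓ` of `d`. -/
def LongAt (D : Finset ℝ) (δ ℓ d : ℝ) : Prop :=
  ∃ F ⊆ D, (∀ f ∈ F, |f - d| ≤ ℓ) ∧ (∀ f ∈ F, ∀ f' ∈ F, f ≠ f' → δ < |f - f'|) ∧
    ℓ / (8 * δ) ≤ F.card

/-- `D` has no element in `[s - δ, s)`. -/
def IsStart (D : Finset ℝ) (δ s : ℝ) : Prop := ∀ t ∈ D, t < s → t < s - δ

/-- `D` has no element in `(s, s + δ]`. -/
def IsStop (D : Finset ℝ) (δ s : ℝ) : Prop := ∀ t ∈ D, s < t → s + δ < t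

lemma exists_largest {D : Finset ℝ} {P : ℝ → Prop} (h : ∃ s ∈ D, P s) :
    ∃ s ∈ D, P s ∧ ∀ t ∈ D, P t → t ≤ s := by
  classical
  obtain ⟨s, hs, hP⟩ := h
  have hne : (D.filter P).Nonempty := ⟨s, by simp [hs, hP]⟩
  have hm := Finset.max'_mem _ hne
  rw [Finset.mem_filter] at hm
  refine ⟨(D.filter P).max' hne, hm.1, hm.2, fun t ht hPt => ?_⟩
  exact Finset.le_max' _ _ (by simp [ht, hPt])

lemma exists_least {D : Finset ℝ} {P : ℝ → Prop} (h : ∃ s ∈ D, P s) :
    ∃ s ∈ D, P s ∧ ∀ t ∈ D, P t → s ≤ t := by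
  classical
  obtain ⟨s, hs, hP⟩ := h
  have hne : (D.filter P).Nonempty := ⟨s, by simp [hs, hP]⟩
  have hm := Finset.min'_mem _ hne
  rw [Finset.mem_filter] at hm
  refine ⟨(D.filter P).min' hne, hm.1, hm.2, fun t ht hPt => ?_⟩
  exact Finset.min'_le _ _ (by simp [ht, hPt])

lemma longAt_of {D : Finset ℝ} {δ ℓ d : ℝ} (hδ : 0 < δ) (hδℓ : 8 * δ ≤ ℓ) (σ : ℝ) (hσ : |σ| = 1)
    (h : ∀ i : ℕ, (2 * (i : ℝ) + 1) * δ ≤ ℓ / 2 →
      ∃ f ∈ D, 2 * (i : ℝ) * δ ≤ σ * (f - d) ∧ σ * (f - d) < (2 * (i : ℝ) + 1) * δ) :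
    LongAt D δ ℓ d := by
  classical
  set n : ℕ := ⌊ℓ / (4 * δ) + 1 / 2⌋₊ with hn
  have hℓ : 0 < ℓ := by linarith
  have hpos : 0 ≤ ℓ / (4 * δ) + 1 / 2 := by positivity
  have hin : ∀ i : ℕ, i < n → (2 * (i : ℝ) + 1) * δ ≤ ℓ / 2 := by
    intro i hi
    have h1 : ((i + 1 : ℕ) : ℝ) ≤ ℓ / (4 * δ) + 1 / 2 :=
      le_trans (by exact_mod_cast hi) (Nat.floor_le hpos)
    push_cast at h1
    have h2 : (i : ℝ) + 1 / 2 ≤ ℓ / (4 * δ) := by linarith
    rw [le_div_iff₀ (by positivity)] at h2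
    nlinarith
  have hex : ∀ i : ℕ, ∃ f : ℝ, i < n → f ∈ D ∧ 2 * (i : ℝ) * δ ≤ σ * (f - d) ∧
      σ * (f - d) < (2 * (i : ℝ) + 1) * δ := by
    intro i
    by_cases hi : i < n
    · obtain ⟨f, hf, h1, h2⟩ := h i (hin i hi)
      exact ⟨f, fun _ => ⟨hf, h1, h2⟩⟩
    · exact ⟨0, fun hi' => absurd hi' hi⟩
  choose f hf using hex
  have habs : ∀ x : ℝ, |σ * x| = |x| := fun x => by rw [abs_mul, hσ, one_mul]
  have hsep : ∀ i j : ℕ, i < j → j < n → δ < |f i - f j| := by
    intro i j hij hj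
    have hi := hf i (hij.trans hj)
    have hj' := hf j hj
    have hij' : (i : ℝ) + 1 ≤ j := by exact_mod_cast hij
    have h1 : δ < σ * (f j - f i) := by
      have : σ * (f j - f i) = σ * (f j - d) - σ * (f i - d) := by ring
      rw [this]
      nlinarith [hi.2.2, hj'.2.1]
    calc δ < σ * (f j - f i) := h1
      _ ≤ |σ * (f j - f i)| := le_abs_self _
      _ = |f i - f j| := by rw [habs, abs_sub_comm]
  have hinj : Set.InjOn f (range n : Finset ℕ) := by
    intro i hi j hj hij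
    simp only [Finset.coe_range, Set.mem_Iio] at hi hj
    by_contra hne
    rcases lt_or_gt_of_ne hne with h1 | h1
    · have := hsep i j h1 hj
      rw [hij] at this
      simp at this
      linarith
    · have := hsep j i h1 hi
      rw [hij] at this
      simp at this
      linarith
  refine ⟨(range n).image f, ?_, ?_, ?_, ?_⟩
  · intro x hx
    obtain ⟨i, hi, rfl⟩ := Finset.mem_image.1 hx
    exact (hf i (Finset.mem_range.1 hi)).1
  · intro x hx
    obtain ⟨i, hi, rfl⟩ := Finset.mem_image.1 hx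
    have hi' := Finset.mem_range.1 hi
    obtain ⟨-, h1, h2⟩ := hf i hi'
    have h3 := hin i hi'
    rw [← habs, abs_of_nonneg (le_trans (by positivity) h1)]
    linarith
  · intro x hx y hy hxy
    obtain ⟨i, hi, rfl⟩ := Finset.mem_image.1 hx
    obtain ⟨j, hj, rfl⟩ := Finset.mem_image.1 hy
    have hi' := Finset.mem_range.1 hi
    have hj' := Finset.mem_range.1 hj
    rcases lt_trichotomy i j with h1 | h1 | h1
    · exact hsep i j h1 hj'
    · exact absurd (by rw [h1]) hxy
    · rw [abs_sub_comm]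
      exact hsep j i h1 hi'
  · rw [Finset.card_image_of_injOn hinj, Finset.card_range]
    have h1 : ℓ / (4 * δ) + 1 / 2 < n + 1 := Nat.lt_floor_add_one _
    have h2 : (1 : ℝ) ≤ ℓ / (8 * δ) := by
      rw [le_div_iff₀ (by positivity)]
      linarith
    have h3 : ℓ / (4 * δ) = 2 * (ℓ / (8 * δ)) := by
      field_simp
      norm_num
    linarith

/-- PROOF. Call `s ∈ D` a start if `D` has no element in `[s - δ, s)`, a stop if `D` has no element in
`(s, s + δ]`. For `d ∈ D` let `b d` = largest start `≤ d` (exists: `min D` is a start), `c d` = least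
stop `≥ d` (exists: `max D`). (1) `(b d, c d)` and `(b d', c d')` are equal or the intervals are
disjoint: if `b < b'` and `b' ≤ c` then `b' > d` (maximality of `b`), the predecessor `t ≥ d` of `b'` in
`D` is a stop, so `c ≤ t < b'`, contradiction; symmetric for `b' < b`; if `b = b'`, `d ≤ d'`, and
`c < d'`, the least element of `D` above `c` is a start in `(c, d']`, contradiction, so `c = c'`.
(2) If `c d - b d > ℓ` then `LongAt D δ ℓ d`: `d - b > ℓ / 2` or `c - d > ℓ / 2`. In the first case,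
for every natural `i` with `(2 i + 1) δ ≤ ℓ / 2` there is `f_i ∈ D` in `(d - (2 i + 1) δ, d - 2 i δ]`:
take the largest element `f ≤ d - 2 i δ` of `D` (exists, `b ≤ d - 2 i δ`); if
`f ≤ d - (2 i + 1) δ` then (`i ≥ 1`, as `f = d` for `i = 0`) the least element of `D` above `f` is
`> d - 2 i δ ≥ f + δ`, so it is a start, it is `≤ d` and `> f ≥ b` (`b` is itself `≤ d - 2 i δ`),
contradiction. These `f_i` are `δ`-separated, within `ℓ` of `d`, and their number is at least
`ℓ / (4 δ) - 1 ≥ ℓ / (8 δ)` (`8 δ ≤ ℓ`). Second case: symmetric (apply the first one to `-D`).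
(3) `J` = image of `d ↦ (b d, c d)` on the `d ∈ D` with `A + ℓ ≤ d ≤ A' - ℓ`, `c d - b d ≤ ℓ`. -/
theorem exists_blocks {D : Finset ℝ} {δ ℓ A A' : ℝ} (hδ : 0 < δ) (hδℓ : 8 * δ ≤ ℓ) :
    ∃ J : Finset (ℝ × ℝ), Blocks D δ ℓ A A' J ∧ ∀ d ∈ D, A + ℓ ≤ d → d ≤ A' - ℓ →
      LongAt D δ ℓ d ∨ ∃ p ∈ J, p.1 ≤ d ∧ d ≤ p.2 := by
  classical
  -- the least stop above an element
  have hstop : ∀ s : ℝ, ∃ c : ℝ, s ∈ D → c ∈ D ∧ (IsStop D δ c ∧ s ≤ c) ∧
      ∀ t ∈ D, IsStop D δ t ∧ s ≤ t → c ≤ t := by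
    intro s
    by_cases hs : s ∈ D
    · obtain ⟨m, hm, -, hmax⟩ := exists_largest (P := fun _ => True) ⟨s, hs, trivial⟩
      have hmst : IsStop D δ m := fun t ht hlt => absurd (hmax t ht trivial) (not_le.2 hlt)
      obtain ⟨c, hc, h1, h2⟩ := exists_least (D := D) (P := fun t => IsStop D δ t ∧ s ≤ t)
        ⟨m, hm, hmst, hmax s hs trivial⟩
      exact ⟨c, fun _ => ⟨hc, h1, h2⟩⟩
    · exact ⟨0, fun h => absurd h hs⟩
  choose c hc using hstop
  -- two starts
  have hsep : ∀ s ∈ D, ∀ s' ∈ D, IsStart D δ s' → s < s' → c s < s' := by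
    intro s hs s' hs' hst hlt
    obtain ⟨t, ht, htlt, htmax⟩ := exists_largest (D := D) (P := fun t => t < s') ⟨s, hs, hlt⟩
    have htstop : IsStop D δ t := by
      intro u hu htu
      have h1 : s' ≤ u := by
        by_contra hcon
        exact absurd (htmax u hu (not_le.1 hcon)) (not_le.2 htu)
      have h2 := hst t ht htlt
      linarith
    exact lt_of_le_of_lt ((hc s hs).2.2 t ht ⟨htstop, htmax s hs hlt⟩) htlt
  set S : Finset ℝ := D.filter (fun s => IsStart D δ s ∧ c s ≤ s + ℓ ∧ A ≤ s ∧ c s ≤ A') with hS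
  refine ⟨S.image (fun s => (s, c s)), ⟨?_, ?_, ?_⟩, ?_⟩
  · intro p hp
    obtain ⟨s, hs, rfl⟩ := Finset.mem_image.1 hp
    obtain ⟨hsD, -, h2, h3, h4⟩ := Finset.mem_filter.1 hs
    exact ⟨(hc s hsD).2.1.2, h2, h3, h4⟩
  · intro p hp d hd h1 h2
    obtain ⟨s, hs, rfl⟩ := Finset.mem_image.1 hp
    obtain ⟨hsD, hst, -, -, -⟩ := Finset.mem_filter.1 hs
    simp only at h1 h2 ⊢
    constructor
    · by_contra hcon
      have := hst d hd (not_le.1 hcon)
      linarith
    · by_contra hcon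
      have := (hc s hsD).2.1.1 d hd (not_le.1 hcon)
      linarith
  · intro p hp q hq hpq
    obtain ⟨s, hs, rfl⟩ := Finset.mem_image.1 hp
    obtain ⟨s', hs', rfl⟩ := Finset.mem_image.1 hq
    obtain ⟨hsD, hst, -, -, -⟩ := Finset.mem_filter.1 hs
    obtain ⟨hsD', hst', -, -, -⟩ := Finset.mem_filter.1 hs'
    rcases lt_trichotomy s s' with h1 | h1 | h1
    · exact Or.inl (hsep s hsD s' hsD' hst' h1)
    · exact absurd (by rw [h1]) hpq
    · exact Or.inr (hsep s' hsD' s hsD hst h1)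
  · intro d hd hA hA'
    -- the largest start below `d`
    obtain ⟨m, hm, -, hmin⟩ := exists_least (P := fun _ => True) ⟨d, hd, trivial⟩
    have hmst : IsStart D δ m := fun t ht hlt => absurd (hmin t ht trivial) (not_le.2 hlt)
    obtain ⟨s, hs, ⟨hst, hsd⟩, hsmax⟩ := exists_largest (D := D)
      (P := fun t => IsStart D δ t ∧ t ≤ d) ⟨m, hm, hmst, hmin d hd trivial⟩
    obtain ⟨hcD, ⟨hcst, hsc⟩, hcmin⟩ := hc s hs
    have hdc : d ≤ c s := by
      by_contra hcon
      push Not at hcon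
      obtain ⟨u, hu, hcu, humin⟩ := exists_least (D := D) (P := fun t => c s < t) ⟨d, hd, hcon⟩
      have hust : IsStart D δ u := by
        intro t ht htu
        have h1 : t ≤ c s := by
          by_contra h
          exact absurd (humin t ht (not_le.1 h)) (not_le.2 htu)
        have h2 := hcst u hu hcu
        linarith
      have := hsmax u hu ⟨hust, humin d hd hcon⟩
      linarith
    by_cases hlen : c s ≤ s + ℓ
    · right
      refine ⟨(s, c s), Finset.mem_image.2 ⟨s, ?_, rfl⟩, hsd, hdc⟩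
      rw [hS, Finset.mem_filter]
      exact ⟨hs, hst, hlen, by linarith, by linarith⟩
    · left
      push Not at hlen
      by_cases hhalf : ℓ / 2 < d - s
      · -- many elements below
        refine longAt_of hδ hδℓ (-1) (by norm_num) fun i hi => ?_
        have hi0 : (0 : ℝ) ≤ i := Nat.cast_nonneg i
        have hid : 0 ≤ (i : ℝ) * δ := by positivity
        have hs2 : s ≤ d - 2 * i * δ := by nlinarith
        obtain ⟨f, hf, hfle, hfmax⟩ := exists_largest (D := D)
          (P := fun t => t ≤ d - 2 * i * δ) ⟨s, hs, hs2⟩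
        refine ⟨f, hf, by linarith, ?_⟩
        by_contra hcon
        have hfd : f ≤ d - (2 * i + 1) * δ := by linarith
        have hfltd : f < d := by nlinarith
        obtain ⟨u, hu, hfu, humin⟩ := exists_least (D := D) (P := fun t => f < t) ⟨d, hd, hfltd⟩
        have hu1 : d - 2 * i * δ < u := by
          by_contra h
          exact absurd (hfmax u hu (not_lt.1 h)) (not_le.2 hfu)
        have hust : IsStart D δ u := by
          intro t ht htu
          have h1 : t ≤ f := by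
            by_contra h
            exact absurd (humin t ht (not_le.1 h)) (not_le.2 htu)
          nlinarith
        have := hsmax u hu ⟨hust, humin d hd hfltd⟩
        linarith
      · -- many elements above
        have hhalf' : ℓ / 2 < c s - d := by linarith
        refine longAt_of hδ hδℓ 1 (by norm_num) fun i hi => ?_
        have hi0 : (0 : ℝ) ≤ i := Nat.cast_nonneg i
        have hid : 0 ≤ (i : ℝ) * δ := by positivity
        have hs2 : d + 2 * i * δ ≤ c s := by nlinarith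
        obtain ⟨g, hg, hgle, hgmin⟩ := exists_least (D := D)
          (P := fun t => d + 2 * i * δ ≤ t) ⟨c s, hcD, hs2⟩
        refine ⟨g, hg, by linarith, ?_⟩
        by_contra hcon
        have hgd : d + (2 * i + 1) * δ ≤ g := by linarith
        have hdltg : d < g := by nlinarith
        obtain ⟨u, hu, hug, humax⟩ := exists_largest (D := D) (P := fun t => t < g) ⟨d, hd, hdltg⟩
        have hu1 : u < d + 2 * i * δ := by
          by_contra h
          exact absurd (hgmin u hu (not_lt.1 h)) (not_le.2 hug)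
        have hust : IsStop D δ u := by
          intro t ht htu
          have h1 : g ≤ t := by
            by_contra h
            exact absurd (humax t ht (not_le.1 h)) (not_le.2 htu)
          nlinarith
        have := hcmin u hu ⟨hust, hsd.trans (humax d hd hdltg)⟩
        linarith

end Pool.Agent.Vpt
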