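import Pool.Agent.Lib.Vpt.Blocks

/-!
# Counting the elements in long chains (MP_733c86_co)
-/

set_option autoImplicit false

open Finset

namespace Pool.Agent.Vpt

open Classical in
/-- PROOF. Let `L` be the set to be counted and `S ⊆ L` a maximal subset with `4 ℓ < |f - f'|` for
`f ≠ f'` in `S` (maximal cardinality among the subsets of `L` with this property). Every `d ∈ L` is
within `4 ℓ` of some `f ∈ S`: `card L ≤ card S * N`, `N` for the windows `[f - 4 ℓ, f + 4 ℓ]`. For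
`f ∈ S` choose the set `F_f` of `LongAt`: the union of the `F_f` is `δ`-separated (`4 ℓ - 2 ℓ ≥ δ`), in
`[A, A']`, and has `∑ card F_f ≥ card S * ℓ / (8 δ)` elements, so `card S ≤ 8 δ m / ℓ`. -/
theorem long_count {D : Finset ℝ} {δ ℓ A A' m N : ℝ} (hδ : 0 < δ) (hδℓ : 8 * δ ≤ ℓ)
    (hAA : A ≤ A')
    (hm : ∀ F ⊆ D, (∀ f ∈ F, A ≤ f ∧ f ≤ A') → (∀ f ∈ F, ∀ f' ∈ F, f ≠ f' → δ < |f - f'|) →
      (F.card : ℝ) ≤ m)
    (hN : ∀ a, A - 4 * ℓ ≤ a → a + 8 * ℓ ≤ A' + 4 * ℓ →
      ((D.filter fun d => a ≤ d ∧ d ≤ a + 8 * ℓ).card : ℝ) ≤ N) :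
    ((D.filter fun d => A + ℓ ≤ d ∧ d ≤ A' - ℓ ∧ LongAt D δ ℓ d).card : ℝ) ≤
      8 * δ * m / ℓ * N := by
  set L := D.filter fun d => A + ℓ ≤ d ∧ d ≤ A' - ℓ ∧ LongAt D δ ℓ d with hLdef
  have hℓ : 0 < ℓ := by linarith
  have hm0 : 0 ≤ m := by
    have := hm ∅ (by simp) (by simp) (by simp)
    simpa using this
  have hN0 : 0 ≤ N :=
    le_trans (Nat.cast_nonneg _) (hN (A - 4 * ℓ) le_rfl (by linarith))
  let Q : Finset (Finset ℝ) :=
    L.powerset.filter fun S => ∀ f ∈ S, ∀ f' ∈ S, f ≠ f' → 4 * ℓ < |f - f'|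
  have hQ : ∀ S, S ∈ Q ↔ S ⊆ L ∧ ∀ f ∈ S, ∀ f' ∈ S, f ≠ f' → 4 * ℓ < |f - f'| := by
    intro S
    simp only [Q, Finset.mem_filter, Finset.mem_powerset]
  obtain ⟨S, hSQ, hSmax⟩ := Finset.exists_max_image Q Finset.card
    ⟨∅, by rw [hQ]; exact ⟨Finset.empty_subset _, by simp⟩⟩
  obtain ⟨hSL, hsep⟩ := (hQ S).1 hSQ
  have hcov : ∀ d ∈ L, ∃ f ∈ S, |d - f| ≤ 4 * ℓ := by
    intro d hd
    by_contra hcon
    push Not at hcon
    have hdS : d ∉ S := by
      intro h
      have h1 := hcon d h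
      simp at h1
      linarith
    have hin : insert d S ∈ Q := by
      rw [hQ]
      refine ⟨Finset.insert_subset hd hSL, ?_⟩
      intro f hf f' hf' hne
      rcases Finset.mem_insert.1 hf with hfd | hfS
      · rcases Finset.mem_insert.1 hf' with hfd' | hfS'
        · exact absurd (hfd.trans hfd'.symm) hne
        · rw [hfd]
          exact hcon f' hfS'
      · rcases Finset.mem_insert.1 hf' with hfd' | hfS'
        · rw [abs_sub_comm, hfd']
          exact hcon f hfS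
        · exact hsep f hfS f' hfS' hne
    have h2 := hSmax _ hin
    rw [Finset.card_insert_of_notMem hdS] at h2
    omega
  have hLm : ∀ f ∈ L, A + ℓ ≤ f ∧ f ≤ A' - ℓ ∧ LongAt D δ ℓ f := fun f hf =>
    (Finset.mem_filter.1 hf).2
  -- the windows
  have h1 : (L.card : ℝ) ≤ S.card * N := by
    have hsub : L ⊆ S.biUnion fun f =>
        D.filter fun d => f - 4 * ℓ ≤ d ∧ d ≤ (f - 4 * ℓ) + 8 * ℓ := by
      intro d hd
      obtain ⟨f, hf, hdf⟩ := hcov d hd
      rw [abs_le] at hdf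
      rw [Finset.mem_biUnion]
      exact ⟨f, hf, Finset.mem_filter.2 ⟨(Finset.mem_filter.1 hd).1, by linarith, by linarith⟩⟩
    have hc : (L.card : ℝ) ≤ ∑ f ∈ S,
        ((D.filter fun d => f - 4 * ℓ ≤ d ∧ d ≤ (f - 4 * ℓ) + 8 * ℓ).card : ℝ) := by
      have := (Finset.card_le_card hsub).trans Finset.card_biUnion_le
      exact_mod_cast this
    refine hc.trans ?_
    have : ∀ f ∈ S, ((D.filter fun d => f - 4 * ℓ ≤ d ∧ d ≤ (f - 4 * ℓ) + 8 * ℓ).card : ℝ) ≤ N := by
      intro f hf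
      obtain ⟨ha, hb, -⟩ := hLm f (hSL hf)
      exact hN _ (by linarith) (by linarith)
    refine (Finset.sum_le_sum this).trans ?_
    simp
  -- the separated set
  have h2 : (S.card : ℝ) ≤ 8 * δ * m / ℓ := by
    have hch : ∀ f ∈ S, ∃ F ⊆ D, (∀ g ∈ F, |g - f| ≤ ℓ) ∧
        (∀ g ∈ F, ∀ g' ∈ F, g ≠ g' → δ < |g - g'|) ∧ ℓ / (8 * δ) ≤ F.card := by
      intro f hf
      exact (hLm f (hSL hf)).2.2
    choose! G hGD hGl hGs hGc using hch
    have hfar : ∀ f ∈ S, ∀ f' ∈ S, f ≠ f' → ∀ g ∈ G f, ∀ g' ∈ G f', δ < |g - g'| := by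
      intro f hf f' hf' hne g hg g' hg'
      have a1 := hsep f hf f' hf' hne
      have a2 := hGl f hf g hg
      have a3 := hGl f' hf' g' hg'
      have a4 : |f - f'| ≤ |g - f| + |g - g'| + |g' - f'| := by
        have : f - f' = -(g - f) + (g - g') + (g' - f') := by ring
        rw [this]
        refine (abs_add_three _ _ _).trans ?_
        rw [abs_neg]
      linarith
    have hdisj : (S : Set ℝ).PairwiseDisjoint G := by
      intro f hf f' hf' hne
      rw [Function.onFun, Finset.disjoint_left]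
      intro g hg hg'
      have := hfar f hf f' hf' hne g hg g hg'
      simp at this
      linarith
    have hU := hm (S.biUnion G)
      (by
        intro g hg
        obtain ⟨f, hf, hgf⟩ := Finset.mem_biUnion.1 hg
        exact hGD f hf hgf)
      (by
        intro g hg
        obtain ⟨f, hf, hgf⟩ := Finset.mem_biUnion.1 hg
        have a2 := hGl f hf g hgf
        obtain ⟨ha, hb, -⟩ := hLm f (hSL hf)
        rw [abs_le] at a2
        constructor <;> linarith)
      (by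
        intro g hg g' hg' hne
        obtain ⟨f, hf, hgf⟩ := Finset.mem_biUnion.1 hg
        obtain ⟨f', hf', hgf'⟩ := Finset.mem_biUnion.1 hg'
        by_cases hff : f = f'
        · subst hff
          exact hGs f hf g hgf g' hgf' hne
        · exact hfar f hf f' hf' hff g hgf g' hgf')
    rw [Finset.card_biUnion hdisj] at hU
    push_cast at hU
    have hsum : (S.card : ℝ) * (ℓ / (8 * δ)) ≤ ∑ f ∈ S, ((G f).card : ℝ) := by
      have := Finset.sum_le_sum (s := S) (f := fun _ => ℓ / (8 * δ))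
        (g := fun f => ((G f).card : ℝ)) (fun f hf => hGc f hf)
      simpa using this
    have hfin : (S.card : ℝ) * (ℓ / (8 * δ)) ≤ m := hsum.trans hU
    rw [le_div_iff₀ hℓ]
    have h8 : (0 : ℝ) < 8 * δ := by linarith
    rw [← mul_div_assoc, div_le_iff₀ h8] at hfin
    linarith
  calc (L.card : ℝ) ≤ S.card * N := h1
    _ ≤ 8 * δ * m / ℓ * N := mul_le_mul_of_nonneg_right h2 hN0

end Pool.Agent.Vpt
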