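import Pool.Agent.Lib.Vpt.ZB

/-!
# Few distances in a short window (MP_733c86_co)
-/

set_option autoImplicit false

open Finset Pool.Agent.Vps
open scoped ComplexConjugate

namespace Pool.Agent.Vpt

namespace WindowAux

open Pool.Agent.Vps.SameSideAux

/-- Two points on the left of `x` whose distances from `x` differ by at most `r`. -/
theorem near {T a r : ℝ} (hT : T ≤ 1 / 10 ^ 4) {x y y' : ℂ} (hx : |‖x‖ ^ 2 - 1| ≤ T)
    (hy : |‖y‖ ^ 2 - 1| ≤ T) (hy' : |‖y'‖ ^ 2 - 1| ≤ T) (ha : 5 / 10 ≤ a) (ha' : a ≤ 15 / 10)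
    (hr0 : 0 ≤ r) (hr : r ≤ 1 / 10 ^ 4) (h1 : a ≤ dist x y) (h2 : dist x y ≤ a + r)
    (h1' : a ≤ dist x y') (h2' : dist x y' ≤ a + r)
    (h4 : 0 < (y * conj x).im) (h4' : 0 < (y' * conj x).im) : dist y y' ≤ 20 * (T + r) := by
  have hT0 : 0 ≤ T := (abs_nonneg _).trans hx
  have e1 := dist_sq_eq x y
  have e2 := norm_sq_frame x y
  have e1' := dist_sq_eq x y'
  have e2' := norm_sq_frame x y'
  have e3 := norm_sq_frame x (y - y')
  have e4 : ((y - y') * conj x).re = (y * conj x).re - (y' * conj x).re := by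
    rw [sub_mul, Complex.sub_re]
  have e5 : ((y - y') * conj x).im = (y * conj x).im - (y' * conj x).im := by
    rw [sub_mul, Complex.sub_im]
  rw [e4, e5, ← Complex.dist_eq] at e3
  have hd1 : (5 / 10) ^ 2 ≤ dist x y ^ 2 := pow_le_pow_left₀ (by norm_num) (ha.trans h1) 2
  have hd2 : dist x y ^ 2 ≤ (151 / 100) ^ 2 := pow_le_pow_left₀ dist_nonneg (by linarith) 2
  have hd1' : (5 / 10) ^ 2 ≤ dist x y' ^ 2 := pow_le_pow_left₀ (by norm_num) (ha.trans h1') 2
  have hd2' : dist x y' ^ 2 ≤ (151 / 100) ^ 2 := pow_le_pow_left₀ dist_nonneg (by linarith) 2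
  have hdd : |dist x y ^ 2 - dist x y' ^ 2| ≤ 4 * r := by
    have h5 : dist x y ^ 2 - dist x y' ^ 2 = (dist x y - dist x y') * (dist x y + dist x y') := by
      ring
    rw [h5, abs_mul]
    have h6 : |dist x y - dist x y'| ≤ r := by
      rw [abs_le]; constructor <;> linarith
    have h7 : |dist x y + dist x y'| ≤ 4 := by
      rw [abs_le]; constructor <;> linarith
    calc |dist x y - dist x y'| * |dist x y + dist x y'| ≤ r * 4 :=
          mul_le_mul h6 h7 (abs_nonneg _) hr0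
      _ = 4 * r := by ring
  rw [abs_le] at hx hy hy' hdd
  set r1 := (y * conj x).re with hr1
  set r1' := (y' * conj x).re with hr1'
  set i := (y * conj x).im with hi
  set i' := (y' * conj x).im with hi'
  set p := ‖x‖ ^ 2 with hp
  set b := ‖y‖ ^ 2 with hb
  set c := ‖y'‖ ^ 2 with hc
  have r2 : -(806 / 1000) ≤ r1 := by linarith
  have r3 : r1 ≤ 956 / 1000 := by linarith
  have r2' : -(806 / 1000) ≤ r1' := by linarith
  have r3' : r1' ≤ 956 / 1000 := by linarith
  have hab : 999 / 1000 ≤ b * p := by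
    have h5 : 9999 / 10000 * (9999 / 10000) ≤ b * p :=
      mul_le_mul (by linarith) (by linarith) (by norm_num) (by linarith)
    linarith
  have hac : 999 / 1000 ≤ c * p := by
    have h5 : 9999 / 10000 * (9999 / 10000) ≤ c * p :=
      mul_le_mul (by linarith) (by linarith) (by norm_num) (by linarith)
    linarith
  have s1 : 68 / 1000 ≤ i ^ 2 := im_sq_big r2 r3 hab e2
  have s1' : 68 / 1000 ≤ i' ^ 2 := im_sq_big r2' r3' hac e2'
  have hrr : |r1 - r1'| ≤ T + 2 * r := by
    rw [abs_le]; constructor <;> linarith [hdd.1, hdd.2]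
  have hTr : 0 ≤ T + 2 * r := by linarith
  have hii : |i ^ 2 - i' ^ 2| ≤ 4 * (T + r) := by
    have h5 : i ^ 2 - i' ^ 2 = p * (b - c) - (r1 - r1') * (r1 + r1') := by
      linear_combination e2' - e2
    have h6 : |p * (b - c)| ≤ 10001 / 10000 * (2 * T) := by
      rw [abs_mul]
      apply mul_le_mul _ _ (abs_nonneg _) (by norm_num)
      · rw [abs_of_nonneg (by positivity)]; linarith
      · rw [abs_le]; constructor <;> linarith
    have h7 : |(r1 - r1') * (r1 + r1')| ≤ (T + 2 * r) * (1912 / 1000) := by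
      rw [abs_mul]
      apply mul_le_mul hrr _ (abs_nonneg _) hTr
      rw [abs_le]; constructor <;> linarith
    rw [h5]
    refine (abs_sub _ _).trans ?_
    linarith
  have hi8 : |i - i'| ≤ 8 * (T + r) :=
    diff_small (abs_im_big s1 h4.le) (abs_im_big s1' h4'.le) hii
  have hrr2 : (r1 - r1') ^ 2 ≤ (T + 2 * r) ^ 2 := by
    rw [← sq_abs]; exact pow_le_pow_left₀ (abs_nonneg _) hrr 2
  have hii2 : (i - i') ^ 2 ≤ (8 * (T + r)) ^ 2 := by
    rw [← sq_abs]; exact pow_le_pow_left₀ (abs_nonneg _) hi8 2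
  have hS : (T + 2 * r) ^ 2 ≤ 4 * (T + r) ^ 2 := by nlinarith
  have hd : dist y y' ^ 2 ≤ (20 * (T + r)) ^ 2 := by
    have h5 : 99 / 100 ≤ p := by linarith
    have h6 : dist y y' ^ 2 * (99 / 100) ≤ dist y y' ^ 2 * p :=
      mul_le_mul_of_nonneg_left h5 (by positivity)
    have h7 : (8 * (T + r)) ^ 2 = 64 * (T + r) ^ 2 := by ring
    have h8 : (20 * (T + r)) ^ 2 = 400 * (T + r) ^ 2 := by ring
    have h9 : 0 ≤ (T + r) ^ 2 := sq_nonneg _
    rw [h8]
    linarith
  have hTr' : 0 ≤ 20 * (T + r) := by linarith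
  exact (pow_le_pow_iff_left₀ dist_nonneg hTr' (by norm_num)).1 hd

/-- A fine distance is the distance of a point on the left side. -/
theorem left_point {X : Finset ℂ} {x : ℂ} {d : ℝ} (hd : d ∈ Dset X) (h1 : 3 / 10 ≤ d)
    (h2 : d ≤ 19 / 10) (hf : Fine X x d) :
    ∃ z ∈ X, dist x z = d ∧ 0 < (z * conj x).im := by
  obtain ⟨hc, hn⟩ := hf
  obtain ⟨z, hz, z', hz', hne⟩ := Finset.one_lt_card.1 hc
  rw [Finset.mem_filter] at hz hz'
  by_cases h3 : 0 < (z * conj x).im
  · exact ⟨z, hz.1, hz.2, h3⟩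
  by_cases h4 : 0 < (z' * conj x).im
  · exact ⟨z', hz'.1, hz'.2, h4⟩
  exfalso
  refine hn ?_
  rw [coin, Finset.mem_filter]
  exact ⟨hd, h1, h2, z, hz.1, z', hz'.1, hne, hz.2, hz'.2, iff_of_false h3 h4⟩

end WindowAux

open WindowAux in
/-- Few distances in a short window. PROOF. For `d ∈ Dset X ∩ [a, a + r]`, `d ∉ ZB X x`, there is a
point `z ∈ X` with `dist x z = d`, `0 < Im (z conj x)` (`Fine`: two points, not on the same side). Two
such points `z`, `z'` are at distance `≤ 10 T + 9 r ≤ g` (as in `coin_dist`: `Re (z conj x)` differ by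
`≤ T + 2 r`, the squares of the positive `Im (z conj x) ≥ 0.26` by `≤ 2.1 T + 2 (T + 2 r)`), so they are
in one `ball X z g`, which has at most `2 n g + e` points (`upper`). -/
theorem window {X : Finset ℂ} {e T : ℝ} (h : Ann X e T) {g : ℝ} (hg0 : 0 < g)
    (hg : g ≤ 1 / 10 ^ 8) (hT : T ≤ g / 10 ^ 11) (hn : 2 * 10 ^ 12 * (e + 1) ≤ X.card * g) {x : ℂ}
    (hx : x ∈ X) {a r : ℝ} (ha : 5 / 10 ≤ a) (ha' : a ≤ 15 / 10) (hr0 : 0 ≤ r) (hr : r ≤ g / 40) :
    (((Dset X).filter fun d => a ≤ d ∧ d ≤ a + r).card : ℝ) ≤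
      2 * X.card * g + e + (ZB X x).card := by
  classical
  have hT4 : T ≤ 1 / 10 ^ 4 := by
    refine hT.trans ?_
    norm_num at hg ⊢
    linarith
  have hr4 : r ≤ 1 / 10 ^ 4 := by
    refine hr.trans ?_
    norm_num at hg ⊢
    linarith
  set S : Finset ℝ := (Dset X).filter fun d => a ≤ d ∧ d ≤ a + r with hS
  have he : 0 ≤ e := h.nonneg
  have hmain : ((S \ ZB X x).card : ℝ) ≤ 2 * X.card * g + e := by
    rcases (S \ ZB X x).eq_empty_or_nonempty with h0 | ⟨d0, hd0⟩
    · rw [h0, Finset.card_empty, Nat.cast_zero]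
      positivity
    · have hpt : ∀ d ∈ S \ ZB X x, ∃ z ∈ X, dist x z = d ∧ 0 < (z * conj x).im := by
        intro d hd
        rw [Finset.mem_sdiff, hS, Finset.mem_filter] at hd
        obtain ⟨⟨hdD, hda, hdb⟩, hdZ⟩ := hd
        exact left_point hdD (by linarith) (by linarith) (fine_of_notMem hdD hdZ)
      have hex : ∃ f : ℝ → ℂ, ∀ d ∈ S \ ZB X x, f d ∈ X ∧ dist x (f d) = d ∧
          0 < (f d * conj x).im := by
        refine ⟨fun d => if hd : d ∈ S \ ZB X x then (hpt d hd).choose else 0, fun d hd => ?_⟩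
        simp only [hd, dite_true]
        exact (hpt d hd).choose_spec
      obtain ⟨f, hf⟩ := hex
      have hinj : Set.InjOn f (S \ ZB X x : Finset ℝ) := by
        intro d hd d' hd' hdd
        have h1 := (hf d hd).2.1
        have h2 := (hf d' hd').2.1
        rw [← h1, ← h2, hdd]
      have hsub : (S \ ZB X x).image f ⊆ ball X (f d0) g := by
        intro w hw
        obtain ⟨d, hd, rfl⟩ := Finset.mem_image.1 hw
        obtain ⟨h1, h2, h3⟩ := hf d hd
        obtain ⟨h1', h2', h3'⟩ := hf d0 hd0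
        refine mem_ball.2 ⟨h1, ?_⟩
        have hm := hd
        have hm0 := hd0
        rw [Finset.mem_sdiff, hS, Finset.mem_filter] at hm hm0
        have h5 := near hT4 (h.ann x hx) (h.ann _ h1) (h.ann _ h1') ha ha' hr0 hr4
          (by rw [h2]; exact hm.1.2.1) (by rw [h2]; exact hm.1.2.2)
          (by rw [h2']; exact hm0.1.2.1) (by rw [h2']; exact hm0.1.2.2) h3 h3'
        refine h5.trans ?_
        norm_num at hT hr ⊢
        linarith
      have hcard : (S \ ZB X x).card ≤ (ball X (f d0) g).card := by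
        rw [← Finset.card_image_of_injOn hinj]
        exact Finset.card_le_card hsub
      have hup := upper h hg0 hg hT hn le_rfl (by linarith) (hf d0 hd0).1
      have hcard' : ((S \ ZB X x).card : ℝ) ≤ ((ball X (f d0) g).card : ℝ) := by
        exact_mod_cast hcard
      exact hcard'.trans hup
  have hle : S.card ≤ (S \ ZB X x).card + (ZB X x).card := by
    have h1 : S ⊆ (S \ ZB X x) ∪ ZB X x := by
      intro d hd
      by_cases h2 : d ∈ ZB X x
      · exact Finset.mem_union_right _ h2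
      · exact Finset.mem_union_left _ (Finset.mem_sdiff.2 ⟨hd, h2⟩)
    exact (Finset.card_le_card h1).trans (Finset.card_union_le _ _)
  have hle' : (S.card : ℝ) ≤ (S \ ZB X x).card + (ZB X x).card := by exact_mod_cast hle
  linarith

end Pool.Agent.Vpt
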