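import Pool.Agent.Lib.Vps.Upper
import Pool.Agent.Lib.Vpt.BlockErr

/-!
# Exceptional distances of a point; many distances (MP_733c86_co)
-/

set_option autoImplicit false

open Finset Pool.Agent.Vps
open scoped ComplexConjugate

namespace Pool.Agent.Vpt

open Classical in
/-- The distances between `3 / 10` and `19 / 10` which `x` does not see exactly once on each side. -/
noncomputable def ZB (X : Finset ℂ) (x : ℂ) : Finset ℝ :=
  ((Dset X).filter fun d => (X.filter fun z => dist x z = d).card ≤ 1) ∪ coin X x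

/-- PROOF: `badcount` with `Y = X`. -/
theorem card_ZB {X : Finset ℂ} {e : ℝ} (h : Sys X e) {x : ℂ} (hx : x ∈ X) :
    ((ZB X x).card : ℝ) ≤ e + ((coin X x).card : ℝ) := by
  classical
  have h1 := badcount h (Finset.Subset.refl X) hx
  rw [Finset.sdiff_self, Finset.card_empty, Nat.cast_zero, add_zero] at h1
  have h2 : (ZB X x).card ≤
      ((Dset X).filter fun d => (X.filter fun z => dist x z = d).card ≤ 1).card +
        (coin X x).card := by
    unfold ZB
    refine le_trans (le_of_eq ?_) (Finset.card_union_le _ _)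
    congr 1
  have h3 : ((ZB X x).card : ℝ) ≤
      (((Dset X).filter fun d => (X.filter fun z => dist x z = d).card ≤ 1).card : ℝ) +
        ((coin X x).card : ℝ) := by exact_mod_cast h2
  linarith

theorem fine_of_notMem {X : Finset ℂ} {x : ℂ} {d : ℝ} (hd : d ∈ Dset X) (h : d ∉ ZB X x) :
    Fine X x d := by
  unfold ZB at h
  rw [Finset.mem_union, not_or] at h
  refine ⟨?_, h.2⟩
  by_contra hcon
  exact h.1 (Finset.mem_filter.2 ⟨hd, not_lt.1 hcon⟩)

/-- Many distances. PROOF. `x` sees a point `u` of the unit circle on the left side at distance about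
`c` (`c = 7 / 10` or `13 / 10`; as in `Vps.meet`), `density` gives `x' ∈ X`, `dist x' u ≤ 3 g`, and
`avg` with `σ = 5 / 100` at least `n / 200 - e` points of `X` in `ball X x' (5 / 100)`, all at distance
between `c - 8 / 100` and `c + 8 / 100` of `x`; at most two of them have the same distance from `x`
(`valid`), so there are at least `(n / 200 - e) / 2 ≥ n / 500` distances. -/
theorem many_dist {X : Finset ℂ} {e T : ℝ} (h : Ann X e T) {g : ℝ} (hg0 : 0 < g)
    (hg : g ≤ 1 / 10 ^ 8) (hT : T ≤ g / 10 ^ 11) (hn : 2 * 10 ^ 12 * (e + 1) ≤ X.card * g) {c : ℝ}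
    (hc : c = 7 / 10 ∨ c = 13 / 10) :
    (X.card : ℝ) / 500 ≤ (((Dset X).filter fun d => c - 8 / 100 ≤ d ∧ d ≤ c + 8 / 100).card : ℝ) := by
  classical
  have hc1 : 7 / 10 ≤ c := by rcases hc with h | h <;> rw [h] <;> norm_num
  have hc2 : c ≤ 13 / 10 := by rcases hc with h | h <;> rw [h] <;> norm_num
  have he := h.nonneg
  obtain ⟨x, hx⟩ := h.nonempty
  have hTg : T ≤ g := by
    refine hT.trans ?_
    rw [div_le_iff₀ (by norm_num)]
    linarith
  have hx1 : |‖x‖ - 1| ≤ g := (NoTwinAux.norm_sub_one_le (h.ann x hx)).trans hTg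
  have hxpos : 0 < ‖x‖ := by
    have := (abs_le.1 hx1).1
    linarith
  set u0 : ℂ := x / ‖x‖ with hu0
  have hu0n : ‖u0‖ = 1 := by
    rw [hu0, norm_div, Complex.norm_real, norm_norm, div_self hxpos.ne']
  have hxu : dist x u0 ≤ g := by
    have h1 : x - u0 = ((‖x‖ - 1 : ℝ) : ℂ) * u0 := by
      rw [hu0]
      push_cast
      have : (‖x‖ : ℂ) ≠ 0 := by exact_mod_cast hxpos.ne'
      field_simp
    rw [Complex.dist_eq, h1, norm_mul, hu0n, mul_one, Complex.norm_real, Real.norm_eq_abs]
    exact hx1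
  set θ : ℝ := 2 * Real.arcsin (c / 2) with hθ
  set u : ℂ := u0 * Complex.exp (Complex.I * θ) with hu
  have hun : ‖u‖ = 1 := by
    rw [hu, norm_mul, hu0n, one_mul, mul_comm, Complex.norm_exp_ofReal_mul_I]
  have hdu : dist u0 u = c := by
    have h1 : u - u0 = u0 * (Complex.exp (Complex.I * θ) - 1) := by rw [hu]; ring
    rw [dist_comm, Complex.dist_eq, h1, norm_mul, hu0n, one_mul]
    rw [Complex.norm_exp_I_mul_ofReal_sub_one, hθ, mul_div_cancel_left₀ _ (by norm_num : (2:ℝ) ≠ 0),
      Real.sin_arcsin (by linarith) (by linarith)]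
    rw [mul_div_cancel₀ _ (by norm_num : (2:ℝ) ≠ 0), Real.norm_eq_abs, abs_of_nonneg (by linarith)]
  obtain ⟨x', hx', hxu'⟩ := density h hg0 hg hT hn hun
  have hav := avg h (σ := 5 / 100) (by
    have : T ≤ 1 / 10 ^ 8 := hTg.trans hg
    linarith) (by norm_num) (by norm_num) hx'
  have hb : ∀ y ∈ ball X x' (5 / 100), c - 8 / 100 ≤ dist x y ∧ dist x y ≤ c + 8 / 100 := by
    intro y hy
    have hy2 := (mem_ball.1 hy).2
    have h1 := dist_triangle4 x u0 u x'
    have h2 := dist_triangle x x' y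
    have h3 := dist_triangle4 u0 x x' u
    have h4 := dist_triangle x y x'
    rw [dist_comm u x', hdu] at h1
    rw [hdu, dist_comm u0 x] at h3
    rw [dist_comm x' y] at h2
    constructor <;> linarith
  -- fibres
  have hsub : ∀ y ∈ ball X x' (5 / 100),
      dist x y ∈ (Dset X).filter fun d => c - 8 / 100 ≤ d ∧ d ≤ c + 8 / 100 := by
    intro y hy
    have h1 := hb y hy
    refine Finset.mem_filter.2 ⟨dist_mem_Dset hx (ball_subset hy) ?_, h1⟩
    intro hxy
    rw [hxy, dist_self] at h1
    linarith [h1.1]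
  have hcard : (ball X x' (5 / 100)).card ≤
      2 * ((Dset X).filter fun d => c - 8 / 100 ≤ d ∧ d ≤ c + 8 / 100).card := by
    refine Finset.card_le_mul_card_image_of_maps_to (f := fun y => dist x y) hsub 2 ?_
    intro d hd
    refine le_trans (Finset.card_le_card ?_) (h.valid x hx d)
    intro y hy
    rw [Finset.mem_filter] at hy ⊢
    refine ⟨ball_subset hy.1, ?_, hy.2⟩
    rintro rfl
    have h1 := (hb y hy.1).1
    rw [dist_self] at h1
    linarith
  have hcard' : ((ball X x' (5 / 100)).card : ℝ) ≤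
      2 * (((Dset X).filter fun d => c - 8 / 100 ≤ d ∧ d ≤ c + 8 / 100).card : ℝ) := by
    exact_mod_cast hcard
  have hn1 : 2 * 10 ^ 12 * (e + 1) ≤ (X.card : ℝ) * (1 / 10 ^ 8) :=
    hn.trans (mul_le_mul_of_nonneg_left hg (by positivity))
  have hX0 : (0 : ℝ) ≤ X.card := by positivity
  linarith

end Pool.Agent.Vpt
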